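import Pool.Agent.W5h77.RQ.Psi
import Pool.Agent.H904L2.AT2

/-!
# The size of the Hankel determinants of a square root

Adapted from `Pool/Agent/H904L2/AT1.lean` and `DetBound.lean`.
-/

set_option autoImplicit false

open Polynomial
open scoped Real

namespace Pool.Agent.W5h77.RQ

open H904L2

open DetBound in
theorem det_le_exp (L : ℂ[X] →ₗ[ℂ] ℂ) (K : Set ℂ) (hK : IsCompact K) (hKi : K.Infinite) (C : ℝ)
    (hC : 0 ≤ C)
    (hL : ∀ p : ℂ[X], ∀ B : ℝ, (∀ z ∈ K, ‖p.eval z‖ ≤ B) → ‖L p‖ ≤ C * B)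
    (b F η : ℝ) (hη : 0 < η)
    (hE : ∀ N : ℕ, 0 < N → ∀ z : Fin N → ℂ, Function.Injective z → (∀ i, z i ∈ K) →
      ∑ i, ∑ j ∈ Finset.univ.erase i, Real.log ‖z i - z j‖ ≤ N * b + (N : ℝ) ^ 2 * F) :
    ∃ N0 : ℕ, ∀ N, N0 ≤ N →
      ‖(Matrix.of fun i j : Fin N => L (X ^ ((i : ℕ) + (j : ℕ)))).det‖ ≤
        Real.exp ((N : ℝ) ^ 2 * (F + η)) := by
  obtain ⟨N0, hN0⟩ := numeric C b η hC hη
  refine ⟨max N0 1, fun N hN => ?_⟩
  have hN1 : N0 ≤ N := (le_max_left _ _).trans hN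
  have hN2 : 0 < N := (le_max_right N0 1).trans hN
  obtain ⟨ζ, hζK, hdet, hmax⟩ := exists_fekete K hK hKi N
  have hinj : Function.Injective ζ := Matrix.det_vandermonde_ne_zero_iff.1 hdet
  have hlk : ∀ k, ∀ z ∈ K, ‖(lk ζ k).eval z‖ ≤ 1 := by
    intro k z hz
    rw [lk_eval, norm_mul, norm_inv]
    have h1 := hmax (Function.update ζ k z) (fun i => by
      by_cases h : i = k
      · subst h
        rw [Function.update_self]
        exact hz
      · rw [Function.update_of_ne h]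
        exact hζK i)
    have h2 : 0 < ‖(Matrix.vandermonde ζ).det‖ := norm_pos_iff.2 hdet
    rw [inv_mul_le_iff₀ h2, mul_one]
    exact h1
  rw [hankel_eq L ζ hdet, Matrix.det_mul, Matrix.det_mul, Matrix.det_transpose, norm_mul,
    norm_mul]
  have hA : ‖(Matrix.of fun k l : Fin N => L (lk ζ k * lk ζ l)).det‖ ≤
      (N.factorial : ℝ) * C ^ N := by
    have h1 := Matrix.det_le (A := Matrix.of fun k l : Fin N => L (lk ζ k * lk ζ l))
      (abv := NormedField.toAbsoluteValue ℂ) (x := C) (fun k l => by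
        have h2 := hL (lk ζ k * lk ζ l) 1 (fun z hz => by
          rw [eval_mul, norm_mul]
          exact mul_le_one₀ (hlk k z hz) (norm_nonneg _) (hlk l z hz))
        rw [mul_one] at h2
        exact h2)
    rw [Fintype.card_fin, nsmul_eq_mul] at h1
    exact h1
  have hE' := hE N hN2 ζ hinj hζK
  calc _ = ‖(Matrix.vandermonde ζ).det‖ ^ 2 *
        ‖(Matrix.of fun k l : Fin N => L (lk ζ k * lk ζ l)).det‖ := by ring
    _ ≤ Real.exp (N * b + (N : ℝ) ^ 2 * F) * ((N.factorial : ℝ) * C ^ N) := by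
        rw [det_sq ζ hinj]
        exact mul_le_mul (Real.exp_le_exp.2 hE') hA (norm_nonneg _) (Real.exp_pos _).le
    _ = Real.exp ((N : ℝ) ^ 2 * (F + η)) *
        (Real.exp (N * b - (N : ℝ) ^ 2 * η) * ((N.factorial : ℝ) * C ^ N)) := by
        have e : Real.exp (N * b + (N : ℝ) ^ 2 * F) =
            Real.exp ((N : ℝ) ^ 2 * (F + η)) * Real.exp (N * b - (N : ℝ) ^ 2 * η) := by
          rw [← Real.exp_add]
          congr 1
          ring
        rw [e]
        ring
    _ ≤ Real.exp ((N : ℝ) ^ 2 * (F + η)) * 1 :=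
        mul_le_mul_of_nonneg_left (hN0 N hN1).le (Real.exp_pos _).le
    _ = _ := mul_one _

/-- the Hankel determinants of the power series `∏ (1 - a i X)^(1/2)` -/
theorem hankel_bound {ι : Type} [Fintype ι] [Nonempty ι] (a : ι → ℂ) (ha : ∀ i, a i ≠ 0)
    (c : ℕ → ℂ) (hc0 : c 0 = 1)
    (hc : (PowerSeries.mk c) ^ 2 = ((∏ i, (1 - C (a i) * X) : ℂ[X]) : PowerSeries ℂ))
    (η : ℝ) (hη : 0 < η) :
    ∃ N0 : ℕ, ∀ N, N0 ≤ N →
      ‖(Matrix.of fun i j : Fin N => c ((i : ℕ) + (j : ℕ))).det‖ ≤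
        Real.exp ((N : ℝ) ^ 2 *
          (Fval (Fintype.card ι) (∑ i, (Real.posLog ‖a i‖) ^ 2) + η)) := by
  classical
  obtain ⟨Ψ, T, ε, hT, hΨ, hper, hsupp, hK, hF'⟩ := exists_Psi (fun i => (a i).arg)
    (fun i => Real.posLog ‖a i‖) (fun i => Real.posLog_nonneg) (η / 4) (by linarith)
  obtain ⟨φ, hφ, hφc, hφe, hφT, hφD, hφA⟩ := exists_phi Ψ hΨ hper T hT hsupp
  have hφK : ∀ i, ∀ t : ℝ, t ≤ Real.log ‖a i‖ →
      max t 0 - φ (Complex.exp (t + (a i).arg * Complex.I)) ≤ ε := by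
    intro i t ht
    rw [hφe]
    apply hK i t
    exact ht.trans (le_max_right _ _)
  set G : ℝ := Fval (Fintype.card ι) (∑ i, (Real.posLog ‖a i‖) ^ 2) with hG
  set F : ℝ := (2 * π)⁻¹ * (∫ z, dirE φ z) + 2 * Real.circleAverage φ 0 1 with hFdef
  have hFG : F + 2 * ε ≤ G + η / 4 := by
    rw [hFdef, hφD, hφA]
    exact hF'
  -- the function log⁺ - φ
  set h : ℂ → ℝ := fun w => Real.posLog ‖w‖ - φ w with hh
  have hcont : Continuous h := by
    have h1 : Continuous fun w : ℂ => Real.posLog ‖w‖ := Real.continuous_posLog.comp continuous_norm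
    exact h1.sub hφ.continuous
  have hexp : ∀ (t y : ℝ), ‖Complex.exp (t + y * Complex.I)‖ = Real.exp t := by
    intro t y
    rw [Complex.norm_exp]
    simp
  have hε0 : 0 ≤ ε := by
    obtain ⟨i⟩ := (inferInstance : Nonempty ι)
    have h1 := hφK i (min (Real.log ‖a i‖) (-T)) (min_le_left _ _)
    have h2 : φ (Complex.exp (((min (Real.log ‖a i‖) (-T) : ℝ) : ℂ) + (a i).arg * Complex.I)) = 0 := by
      apply hφT
      rw [hexp]
      exact Real.exp_le_exp.2 (min_le_right _ _)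
    rw [h2] at h1
    have h3 : (0:ℝ) ≤ max (min (Real.log ‖a i‖) (-T)) 0 := le_max_right _ _
    linarith
  obtain ⟨η', hη'0, hη'1, hη'2⟩ : ∃ η', η' = ε + η / 8 ∧ ε < η' ∧ F + 2 * η' ≤ G + η / 2 := by
    refine ⟨ε + η / 8, rfl, ?_, ?_⟩ <;> linarith
  obtain ⟨δ, ρ, hδ, hρ, hclose⟩ := Kset_close a T h hcont ε η' hη'1
    (by
      intro z hz
      have h1 : φ z = 0 := hφT z hz.le
      have h2 : Real.posLog ‖z‖ = 0 := by
        rw [hz, Real.posLog_eq_zero_iff, abs_of_pos (Real.exp_pos _)]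
        exact Real.exp_le_one_iff.2 (by linarith)
      simp only [hh, h1, h2]
      linarith)
    (by
      intro i t _ ht
      have h1 := hφK i t ht
      have h2 : Real.posLog ‖Complex.exp (t + (a i).arg * Complex.I)‖ = max t 0 := by
        rw [hexp, Real.posLog, Real.log_exp, max_comm]
      simp only [hh, h2]
      exact h1)
  -- the radius
  obtain ⟨R, hR0, hRa, hRT⟩ : ∃ R : ℝ, 0 < R ∧ (∀ i, ‖a i‖ < R) ∧ Real.exp (-T) < R := by
    refine ⟨(∑ i, ‖a i‖) + Real.exp (-T) + 1, ?_, ?_, ?_⟩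
    · have := Finset.sum_nonneg (s := Finset.univ) (fun i _ => norm_nonneg (a i))
      have := Real.exp_pos (-T)
      linarith
    · intro i
      have := Finset.single_le_sum (f := fun i => ‖a i‖) (fun i _ => norm_nonneg (a i)) (Finset.mem_univ i)
      have := Real.exp_pos (-T)
      linarith
    · have := Finset.sum_nonneg (s := Finset.univ) (fun i _ => norm_nonneg (a i))
      linarith
  obtain ⟨C, hC0, hC⟩ := contour_bound a ha T δ R hδ hRa hRT
  set L := AT1.Lf a R hR0 (AT1.continuousOn_Fsq a R hR0 hRa) with hL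
  have hLb : ∀ p : ℂ[X], ∀ B : ℝ, (∀ z ∈ Kset a T δ, ‖p.eval z‖ ≤ B) → ‖L p‖ ≤ C * B := hC
  -- coefficients
  obtain ⟨c', hc'0, hc'sq, hc'⟩ := exists_coeffs a
  have hcc : ∀ n, c' n = c n := by
    have h1 : (PowerSeries.mk c' - PowerSeries.mk c) *
        (PowerSeries.mk c' + PowerSeries.mk c) = 0 := by
      have : (PowerSeries.mk c') ^ 2 = (PowerSeries.mk c) ^ 2 := by
        rw [hc'sq, hc]
      linear_combination this
    rcases mul_eq_zero.1 h1 with h2 | h2
    · intro n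
      have h3 := congrArg (PowerSeries.coeff n) (sub_eq_zero.1 h2)
      simpa using h3
    · exfalso
      have h3 := congrArg (PowerSeries.coeff 0) h2
      simp only [map_add, PowerSeries.coeff_mk, map_zero, hc'0, hc0] at h3
      norm_num at h3
  have hLX : ∀ n : ℕ, L (X ^ n) = c n := by
    intro n
    have h1 := hc' R hR0 hRa n
    rw [← hcc n, ← h1]
    change Real.circleAverage (fun z => Fsq a z * (X ^ n : ℂ[X]).eval z) 0 R = _
    simp
  -- the energy bound on the compact set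
  have hE : ∀ N : ℕ, 0 < N → ∀ z : Fin N → ℂ, Function.Injective z →
      (∀ i, z i ∈ Kset a T δ) →
      ∑ i, ∑ j ∈ Finset.univ.erase i, Real.log ‖z i - z j‖ ≤
        N * Real.log (1 / ρ) + (N : ℝ) ^ 2 * (F + 2 * η') := by
    intro N hN z hz hzK
    have h1 := energy_bound φ hφ hφc hN z hz hρ
    have h2 : ∑ i, Real.circleAverage (fun w => Real.posLog ‖w‖ - φ w) (z i) ρ ≤ N * η' := by
      calc ∑ i, Real.circleAverage (fun w => Real.posLog ‖w‖ - φ w) (z i) ρ
          ≤ ∑ _i : Fin N, η' := Finset.sum_le_sum (fun i _ => hclose (z i) (hzK i))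
        _ = N * η' := by simp
    have h3 : 2 * (N : ℝ) * ∑ i, Real.circleAverage (fun w => Real.posLog ‖w‖ - φ w) (z i) ρ ≤
        2 * (N : ℝ) * (N * η') := by
      apply mul_le_mul_of_nonneg_left h2
      positivity
    calc _ ≤ _ := h1
      _ ≤ N * Real.log (1 / ρ) + (N : ℝ) ^ 2 * F + 2 * N * (N * η') := by
          rw [hFdef]
          linarith
      _ = _ := by ring
  obtain ⟨N0, hN0⟩ := det_le_exp L (Kset a T δ) (Kset_isCompact a T δ) (Kset_infinite a T δ) C hC0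
    hLb (Real.log (1 / ρ)) (F + 2 * η') (η / 2) (by linarith) hE
  refine ⟨N0, fun N hN => ?_⟩
  have h1 := hN0 N hN
  have h2 : (Matrix.of fun i j : Fin N => L (X ^ ((i : ℕ) + (j : ℕ)))) =
      Matrix.of fun i j : Fin N => c ((i : ℕ) + (j : ℕ)) := by
    ext i j
    simp [hLX]
  rw [h2] at h1
  refine h1.trans (Real.exp_le_exp.2 ?_)
  apply mul_le_mul_of_nonneg_left _ (by positivity)
  linarith

end Pool.Agent.W5h77.RQ
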