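import Pool.Agent.W5h77.RQ.Gr

/-!
# Automorphisms, roots of unity and the ring `ℤ[ζ]`
-/

set_option autoImplicit false

open Polynomial

namespace Pool.Agent.W5h77.RQ

variable {L : Type} [Field L]

/-- the ring `ℤ[ζ]` -/
abbrev ZZ (ζ : L) : Subalgebra ℤ L := Algebra.adjoin ℤ {ζ}

theorem self_mem (ζ : L) : ζ ∈ ZZ ζ := Algebra.subset_adjoin rfl

theorem map_mem (ζ : L) (g : L →+* L) (hg : g ζ ∈ ZZ ζ) {x : L} (hx : x ∈ ZZ ζ) :
    g x ∈ ZZ ζ := by
  induction hx using Algebra.adjoin_induction with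
  | mem x hx =>
    rw [Set.mem_singleton_iff] at hx
    rw [hx]
    exact hg
  | algebraMap r =>
    have : g (algebraMap ℤ L r) = algebraMap ℤ L r := by simp
    rw [this]
    exact Subalgebra.algebraMap_mem _ _
  | add x y _ _ hx hy => rw [map_add]; exact add_mem hx hy
  | mul x y _ _ hx hy => rw [map_mul]; exact mul_mem hx hy

theorem frob_mem (ζ : L) (g : L →+* L) (hg : g ζ = ζ ^ 2) {x : L} (hx : x ∈ ZZ ζ) :
    ∃ b ∈ ZZ ζ, g x = x ^ 2 + 2 * b := by
  have hg' : g ζ ∈ ZZ ζ := by rw [hg]; exact pow_mem (self_mem ζ) 2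
  induction hx using Algebra.adjoin_induction with
  | mem x hx =>
    rw [Set.mem_singleton_iff] at hx
    exact ⟨0, zero_mem _, by rw [hx, hg]; ring⟩
  | algebraMap r =>
    obtain ⟨k, hk⟩ : ∃ k : ℤ, r = r ^ 2 + 2 * k := by
      rcases Int.even_or_odd' r with ⟨m, h | h⟩
      · exact ⟨m - 2 * m ^ 2, by rw [h]; ring⟩
      · exact ⟨-m - 2 * m ^ 2, by rw [h]; ring⟩
    refine ⟨algebraMap ℤ L k, Subalgebra.algebraMap_mem _ _, ?_⟩
    have h1 : g (algebraMap ℤ L r) = algebraMap ℤ L r := by simp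
    rw [h1]
    calc algebraMap ℤ L r = algebraMap ℤ L (r ^ 2 + 2 * k) := by rw [← hk]
      _ = _ := by simp
  | add x y hx' hy' hx hy =>
    obtain ⟨b, hb, h1⟩ := hx
    obtain ⟨c, hc, h2⟩ := hy
    refine ⟨b + c - x * y, sub_mem (add_mem hb hc) (mul_mem hx' hy'), ?_⟩
    rw [map_add, h1, h2]
    ring
  | mul x y hx' hy' hx hy =>
    obtain ⟨b, hb, h1⟩ := hx
    obtain ⟨c, hc, h2⟩ := hy
    refine ⟨x ^ 2 * c + b * g y, add_mem (mul_mem (pow_mem hx' 2) hc)
      (mul_mem hb (map_mem ζ g hg' hy')), ?_⟩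
    rw [map_mul, h1, h2]
    ring

theorem triv_mem (ζ : L) (g : L →+* L) (hg : g ζ = -ζ) {x : L} (hx : x ∈ ZZ ζ) :
    ∃ b ∈ ZZ ζ, x = g x + 2 * b := by
  have hg' : g ζ ∈ ZZ ζ := by rw [hg]; exact neg_mem (self_mem ζ)
  induction hx using Algebra.adjoin_induction with
  | mem x hx =>
    rw [Set.mem_singleton_iff] at hx
    exact ⟨ζ, self_mem ζ, by rw [hx, hg]; ring⟩
  | algebraMap r =>
    have h1 : g (algebraMap ℤ L r) = algebraMap ℤ L r := by simp
    exact ⟨0, zero_mem _, by rw [h1]; ring⟩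
  | add x y hx' hy' hx hy =>
    obtain ⟨b, hb, h1⟩ := hx
    obtain ⟨c, hc, h2⟩ := hy
    refine ⟨b + c, add_mem hb hc, ?_⟩
    rw [map_add]
    linear_combination h1 + h2
  | mul x y hx' hy' hx hy =>
    obtain ⟨b, hb, h1⟩ := hx
    obtain ⟨c, hc, h2⟩ := hy
    refine ⟨b * y + c * g x, add_mem (mul_mem hb hy')
      (mul_mem hc (map_mem ζ g hg' hx')), ?_⟩
    rw [map_mul]
    linear_combination y * h1 + g x * h2

section NF

variable [NumberField L] [IsGalois ℚ L]

/-- algebraic integers fixed by the stabiliser of `ζ` lie in `ℤ[ζ]` -/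
theorem mem_of_fixed {m : ℕ} (hm : 0 < m) {ζ : L} (hζ : IsPrimitiveRoot ζ m) {x : L}
    (hx : IsIntegral ℤ x) (hfix : ∀ g : L ≃ₐ[ℚ] L, g ζ = ζ → g x = x) : x ∈ ZZ ζ := by
  haveI : NeZero m := ⟨hm.ne'⟩
  have hx1 : x ∈ IntermediateField.adjoin ℚ {ζ} := by
    rw [← IsGalois.fixedField_fixingSubgroup (IntermediateField.adjoin ℚ {ζ}),
      IntermediateField.mem_fixedField_iff]
    intro g hg
    apply hfix
    rw [IntermediateField.mem_fixingSubgroup_iff] at hg
    exact hg ζ (IntermediateField.mem_adjoin_simple_self ℚ ζ)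
  haveI : IsCyclotomicExtension {m} ℚ (IntermediateField.adjoin ℚ {ζ}) :=
    hζ.intermediateField_adjoin_isCyclotomicExtension ℚ
  set z : IntermediateField.adjoin ℚ {ζ} :=
    ⟨ζ, IntermediateField.mem_adjoin_simple_self ℚ ζ⟩ with hz
  have hz' : IsPrimitiveRoot z m := by
    apply IsPrimitiveRoot.of_map_of_injective (f := algebraMap (IntermediateField.adjoin ℚ {ζ}) L)
    · exact hζ
    · exact (algebraMap (IntermediateField.adjoin ℚ {ζ}) L).injective
  have h1 := IsCyclotomicExtension.Rat.isIntegralClosure_adjoin_singleton (n := m) hz'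
  set y : IntermediateField.adjoin ℚ {ζ} := ⟨x, hx1⟩ with hy
  have hyi : IsIntegral ℤ y := by
    have : IsIntegral ℤ (algebraMap (IntermediateField.adjoin ℚ {ζ}) L y) := hx
    rwa [isIntegral_algebraMap_iff
      (algebraMap (IntermediateField.adjoin ℚ {ζ}) L).injective] at this
  obtain ⟨w, hw⟩ := h1.isIntegral_iff.1 hyi
  have hw2 : y ∈ Algebra.adjoin ℤ {z} := by
    rw [← hw]
    exact w.2
  have h2 : ∀ y : IntermediateField.adjoin ℚ {ζ}, y ∈ Algebra.adjoin ℤ {z} → (y : L) ∈ ZZ ζ := by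
    intro y hy
    induction hy using Algebra.adjoin_induction with
    | mem x hx =>
      rw [Set.mem_singleton_iff] at hx
      rw [hx]
      exact self_mem ζ
    | algebraMap r =>
      have : ((algebraMap ℤ (IntermediateField.adjoin ℚ {ζ}) r :
        IntermediateField.adjoin ℚ {ζ}) : L) = algebraMap ℤ L r := by simp
      rw [this]
      exact Subalgebra.algebraMap_mem _ _
    | add x y _ _ hx hy => exact add_mem hx hy
    | mul x y _ _ hx hy => exact mul_mem hx hy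
  exact h2 y hw2

/-- automorphisms act on roots of unity through all coprime powers -/
theorem exists_aut {m : ℕ} (hm : 0 < m) {ζ : L} (hζ : IsPrimitiveRoot ζ m) {k : ℕ}
    (hk : Nat.Coprime k m) : ∃ g : L ≃ₐ[ℚ] L, g ζ = ζ ^ k := by
  have h1 := hζ.minpoly_eq_pow_coprime hk
  have h2 : IsIntegral ℤ ζ := hζ.isIntegral hm
  have h3 : IsIntegral ℤ (ζ ^ k) := h2.pow k
  have h4 : minpoly ℚ (ζ ^ k) = minpoly ℚ ζ := by
    rw [minpoly.isIntegrallyClosed_eq_field_fractions' ℚ h2,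
      minpoly.isIntegrallyClosed_eq_field_fractions' ℚ h3, h1]
  have h5 : IsConjRoot ℚ (ζ ^ k) ζ := h4
  exact isConjRoot_iff_exists_algEquiv.1 h5

end NF

end Pool.Agent.W5h77.RQ
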