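import Mathlib

/-!
# Sums over the embeddings of a number field and over the zeros of the minimal polynomial
-/

set_option autoImplicit false

open Polynomial IntermediateField

namespace Pool.Agent.W5h77.RQ

theorem sum_gen {K : Type} [Field K] [Algebra ℚ K] (pb : PowerBasis ℚ K) (F : ℂ → ℝ) :
    let : Fintype (K →ₐ[ℚ] ℂ) := PowerBasis.AlgHom.fintype pb
    ∑ σ : K →ₐ[ℚ] ℂ, F (σ pb.gen) = (((minpoly ℚ pb.gen).aroots ℂ).map F).sum := by
  classical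
  let : Fintype (K →ₐ[ℚ] ℂ) := PowerBasis.AlgHom.fintype pb
  have hirr : Irreducible (minpoly ℚ pb.gen) := minpoly.irreducible pb.isIntegral_gen
  have hnd : ((minpoly ℚ pb.gen).aroots ℂ).Nodup := nodup_roots hirr.separable.map
  change ∑ σ : K →ₐ[ℚ] ℂ, F (σ pb.gen) = (((minpoly ℚ pb.gen).aroots ℂ).map F).sum
  rw [Fintype.sum_equiv pb.liftEquiv' (fun σ => F (σ pb.gen)) (fun x => F x.1),
    Finset.sum_mem_multiset _ _ F (fun _ => rfl), Finset.sum_eq_multiset_sum, Multiset.toFinset_val,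
    Multiset.dedup_eq_self.mpr hnd]
  intro σ
  rw [PowerBasis.liftEquiv'_apply_coe]

theorem sum_emb (L : Type) [Field L] [NumberField L] (α : L) (hα : IsIntegral ℤ α)
    (F : ℂ → ℝ) : (∑ σ : L →+* ℂ, F (σ α)) * ((minpoly ℤ α).natDegree : ℝ) =
      Module.finrank ℚ L * (((minpoly ℤ α).map (Int.castRingHom ℂ)).roots.map F).sum := by
  classical
  have hαQ : IsIntegral ℚ α := hα.tower_top
  set pb := adjoin.powerBasis hαQ with hpb
  have h1 : ∑ σ : L →+* ℂ, F (σ α) = ∑ σ : L →ₐ[ℚ] ℂ, F (σ α) :=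
    Fintype.sum_equiv (RingHom.equivRatAlgHom L ℂ) _ _ fun σ => rfl
  let : Fintype (ℚ⟮α⟯ →ₐ[ℚ] ℂ) := PowerBasis.AlgHom.fintype pb
  have hgen : algebraMap ℚ⟮α⟯ L pb.gen = α := by
    rw [hpb, adjoin.powerBasis_gen, AdjoinSimple.algebraMap_gen]
  have h2 : ∑ σ : L →ₐ[ℚ] ℂ, F (σ α) =
      Module.finrank ℚ⟮α⟯ L • ∑ σ : ℚ⟮α⟯ →ₐ[ℚ] ℂ, F (σ pb.gen) := by
    rw [Fintype.sum_equiv algHomEquivSigma (fun σ : L →ₐ[ℚ] ℂ => F (σ α))
      (fun σ => F (σ.1 pb.gen)), ← Finset.univ_sigma_univ, Finset.sum_sigma, ← Finset.sum_nsmul]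
    · refine Finset.sum_congr rfl fun σ _ => ?_
      let : Algebra ℚ⟮α⟯ ℂ := σ.toRingHom.toAlgebra
      simp_rw [Finset.sum_const, Finset.card_univ, ← AlgHom.card ℚ⟮α⟯ L ℂ]
    · intro σ
      simp only [algHomEquivSigma, Equiv.coe_fn_mk, AlgHom.domRestrict, AlgHom.comp_apply,
        IsScalarTower.coe_toAlgHom', hgen]
  have h3 : ∑ σ : ℚ⟮α⟯ →ₐ[ℚ] ℂ, F (σ pb.gen) = (((minpoly ℚ pb.gen).aroots ℂ).map F).sum :=
    sum_gen pb F
  have h4 : minpoly ℚ pb.gen = (minpoly ℤ α).map (algebraMap ℤ ℚ) := by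
    have e1 := minpoly.algebraMap_eq (A := ℚ) (algebraMap ℚ⟮α⟯ L).injective pb.gen
    rw [hgen] at e1
    rw [← e1]
    exact minpoly.isIntegrallyClosed_eq_field_fractions' ℚ hα
  have h5 : (minpoly ℚ pb.gen).aroots ℂ = ((minpoly ℤ α).map (Int.castRingHom ℂ)).roots := by
    rw [aroots_def, h4, Polynomial.map_map]
    congr 1
  have h6 : Module.finrank ℚ ℚ⟮α⟯ = (minpoly ℤ α).natDegree := by
    rw [adjoin.finrank hαQ, minpoly.isIntegrallyClosed_eq_field_fractions' ℚ hα,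
      (minpoly.monic hα).natDegree_map]
  have h7 : Module.finrank ℚ L = Module.finrank ℚ ℚ⟮α⟯ * Module.finrank ℚ⟮α⟯ L :=
    (Module.finrank_mul_finrank ℚ ℚ⟮α⟯ L).symm
  rw [h1, h2, h3, h5, h7, h6, nsmul_eq_mul]
  push_cast
  ring

end Pool.Agent.W5h77.RQ
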