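import Pool.Agent.W5h77.RQ.Main
import Pool.Agent.W5h77.RQ.Emb
import Pool.Agent.Y858.RL.Rep
import Pool.Agent.Y932.RL.Tow

/-!
# The quadratic mean inequality over the field of all roots of unity
-/

set_option autoImplicit false

open Polynomial IntermediateField
open Pool.Agent.Y947.RL (QAb)

namespace Pool.Agent.W5h77.RQ

/-- the mean of `(log⁺ |w|)²` over the conjugates `w` of the algebraic integer `z` -/
noncomputable def quadMean (z : ℂ) : ℝ :=
  (((minpoly ℤ z).map (Int.castRingHom ℂ)).roots.map fun w => (Real.posLog ‖w‖) ^ 2).sum /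
    (minpoly ℤ z).natDegree

theorem quadMean_nonneg (z : ℂ) : 0 ≤ quadMean z := by
  unfold quadMean
  apply div_nonneg _ (Nat.cast_nonneg _)
  apply Multiset.sum_nonneg
  intro x hx
  obtain ⟨w, -, rfl⟩ := Multiset.mem_map.1 hx
  positivity

open Pool.Agent.Y858.RL (ze ze_prim exists_level_poly) in
theorem main_QAb (z : ℂ) (hz : IsIntegral ℤ z) (h0 : z ≠ 0) (hr : ∀ n : ℕ, 0 < n → z ^ n ≠ 1) :
    1 / 640 ≤ ((minpoly QAb z).natDegree : ℝ) ^ 2 * quadMean z := by
  classical
  obtain ⟨m, hm, hP⟩ := exists_level_poly (minpoly QAb z)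
  have hzQ : IsIntegral ℚ z := hz.tower_top
  set p : ℚ[X] := minpoly ℚ z * (X ^ m - 1) with hp
  have hpsplit : (p.map (algebraMap ℚ ℂ)).Splits := IsAlgClosed.splits _
  set LL : IntermediateField ℚ ℂ := adjoin ℚ (p.rootSet ℂ) with hLL
  have hSF : p.IsSplittingField ℚ LL := adjoin_rootSet_isSplittingField hpsplit
  have hno : Normal ℚ LL := Normal.of_isSplittingField p
  have hfd : FiniteDimensional ℚ LL := IsSplittingField.finiteDimensional LL p
  have hNF : NumberField LL := { to_charZero := inferInstance, to_finiteDimensional := hfd }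
  have hG : IsGalois ℚ LL := { to_isSeparable := inferInstance, to_normal := hno }
  have hm1 : (X ^ m - 1 : ℚ[X]) ≠ 0 := by
    have := X_pow_sub_C_ne_zero hm (1 : ℚ)
    simpa using this
  have hp0 : p ≠ 0 := mul_ne_zero (minpoly.ne_zero hzQ) hm1
  have hzL : z ∈ LL := by
    apply subset_adjoin ℚ
    rw [mem_rootSet]
    refine ⟨hp0, ?_⟩
    rw [hp, map_mul, minpoly.aeval, zero_mul]
  have hζL : ze m ∈ LL := by
    apply subset_adjoin ℚ
    rw [mem_rootSet]
    refine ⟨hp0, ?_⟩
    rw [hp, map_mul]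
    simp [(ze_prim hm).pow_eq_one]
  set α : LL := ⟨z, hzL⟩ with hα
  set ζ : LL := ⟨ze m, hζL⟩ with hζ
  have hinj : Function.Injective (algebraMap LL ℂ) := (algebraMap LL ℂ).injective
  have hαi : IsIntegral ℤ α := by
    have h1 : IsIntegral ℤ (algebraMap LL ℂ α) := hz
    rwa [isIntegral_algebraMap_iff hinj] at h1
  have hζp : IsPrimitiveRoot ζ m :=
    IsPrimitiveRoot.of_map_of_injective (f := algebraMap LL ℂ) (ze_prim hm) hinj
  have hα0 : α ≠ 0 := by
    intro h
    exact h0 (congrArg (algebraMap LL ℂ) h)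
  have hαr : ∀ n : ℕ, 0 < n → α ^ n ≠ 1 := by
    intro n hn h
    have h1 := congrArg (algebraMap LL ℂ) h
    rw [map_pow, map_one] at h1
    exact hr n hn h1
  have hmain := main_galois ((orb ζ α).card + m) m ζ α le_rfl hm hζp hαi hα0 hαr
  -- the number of conjugates
  have hcard : (orb ζ α).card ≤ (minpoly QAb z).natDegree := by
    set P : QAb[X] := minpoly QAb z with hPdef
    have hPL : ∀ k, (P.coeff k : ℂ) ∈ LL := by
      intro k
      have h1 : ℚ⟮ze m⟯ ≤ LL := by
        rw [adjoin_simple_le_iff]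
        exact hζL
      exact h1 (hP k)
    set PL : LL[X] := ∑ k ∈ Finset.range (P.natDegree + 1), C (⟨(P.coeff k : ℂ), hPL k⟩ : LL) * X ^ k
      with hPLdef
    have hmap : PL.map (algebraMap LL ℂ) = P.map (algebraMap QAb ℂ) := by
      rw [hPLdef, Polynomial.map_sum]
      conv_rhs => rw [P.as_sum_range_C_mul_X_pow, Polynomial.map_sum]
      refine Finset.sum_congr rfl fun k _ => ?_
      simp only [Polynomial.map_mul, map_C, Polynomial.map_pow, map_X]
      rfl
    have hzA : IsIntegral QAb z := hz.tower_top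
    have hmon : P.Monic := minpoly.monic hzA
    have hPL0 : PL ≠ 0 := by
      intro h
      rw [h, Polynomial.map_zero] at hmap
      exact (hmon.map (algebraMap QAb ℂ)).ne_zero hmap.symm
    have hdeg : PL.natDegree = P.natDegree := by
      rw [← natDegree_map_eq_of_injective hinj PL, hmap, hmon.natDegree_map]
    have hroot : PL.eval α = 0 := by
      apply hinj
      have h1 : (PL.map (algebraMap LL ℂ)).eval z = algebraMap LL ℂ (PL.eval α) := by
        have h2 : z = algebraMap LL ℂ α := rfl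
        rw [h2, eval_map_apply]
      rw [← h1, hmap, map_zero, eval_map]
      exact minpoly.aeval QAb z
    have hfixc : ∀ g : LL ≃ₐ[ℚ] LL, g ζ = ζ → ∀ k, g (PL.coeff k) = PL.coeff k := by
      intro g hg k
      have hk : ((PL.coeff k : LL) : ℂ) = P.coeff k := by
        have h1 := congrArg (fun Q : ℂ[X] => Q.coeff k) hmap
        simp only [coeff_map] at h1
        exact h1
      have h7 : ∀ y : ℂ, y ∈ ℚ⟮ze m⟯ → ∃ hy : y ∈ LL, g ⟨y, hy⟩ = ⟨y, hy⟩ := by
        intro y hy
        induction hy using IntermediateField.adjoin_induction with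
        | mem x hx =>
          rw [Set.mem_singleton_iff] at hx
          subst hx
          exact ⟨hζL, hg⟩
        | algebraMap q =>
          refine ⟨LL.algebraMap_mem q, ?_⟩
          have e1 : (⟨algebraMap ℚ ℂ q, LL.algebraMap_mem q⟩ : LL) = (q : LL) := by
            apply Subtype.ext
            simp
          rw [e1]
          exact map_ratCast g q
        | add x y _ _ h1 h2 =>
          obtain ⟨h1, e1⟩ := h1
          obtain ⟨h2, e2⟩ := h2
          refine ⟨add_mem h1 h2, ?_⟩
          have e3 : (⟨x + y, add_mem h1 h2⟩ : LL) = ⟨x, h1⟩ + ⟨y, h2⟩ := rfl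
          rw [e3, map_add, e1, e2]
        | inv x _ h1 =>
          obtain ⟨h1, e1⟩ := h1
          refine ⟨inv_mem h1, ?_⟩
          have e3 : (⟨x⁻¹, inv_mem h1⟩ : LL) = (⟨x, h1⟩ : LL)⁻¹ := rfl
          rw [e3, map_inv₀, e1]
        | mul x y _ _ h1 h2 =>
          obtain ⟨h1, e1⟩ := h1
          obtain ⟨h2, e2⟩ := h2
          refine ⟨mul_mem h1 h2, ?_⟩
          have e3 : (⟨x * y, mul_mem h1 h2⟩ : LL) = ⟨x, h1⟩ * ⟨y, h2⟩ := rfl
          rw [e3, map_mul, e1, e2]
      have h3 : (PL.coeff k : ℂ) ∈ ℚ⟮ze m⟯ := by rw [hk]; exact hP k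
      obtain ⟨h4, h5⟩ := h7 _ h3
      exact h5
    have hsub : orb ζ α ⊆ PL.roots.toFinset := by
      intro x hx
      obtain ⟨g, hg, rfl⟩ := mem_orb.1 hx
      rw [Multiset.mem_toFinset, mem_roots hPL0, IsRoot.def]
      have h1 : PL.map (g : LL →+* LL) = PL := by
        ext k
        rw [coeff_map]
        exact congrArg _ (hfixc g hg k)
      have h2 : (PL.map (g : LL →+* LL)).eval (g α) = g (PL.eval α) := by
        rw [eval_map]
        exact (hom_eval₂ PL (RingHom.id LL) (g : LL →+* LL) α).symm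
      rw [h1, hroot, map_zero] at h2
      exact h2
    calc (orb ζ α).card ≤ PL.roots.toFinset.card := Finset.card_le_card hsub
      _ ≤ PL.roots.card := Multiset.toFinset_card_le _
      _ ≤ PL.natDegree := PL.card_roots'
      _ = P.natDegree := hdeg
  have hsum := sum_emb LL α hαi (fun w => (Real.posLog ‖w‖) ^ 2)
  have hmin : minpoly ℤ α = minpoly ℤ z := (minpoly.algebraMap_eq hinj α).symm
  rw [hmin] at hsum
  have hd : 0 < (minpoly ℤ z).natDegree := minpoly.natDegree_pos hz
  have hdR : (0 : ℝ) < (minpoly ℤ z).natDegree := by exact_mod_cast hd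
  have hMM : MM α = Module.finrank ℚ LL * quadMean z := by
    unfold quadMean MM
    rw [mul_div_assoc', eq_div_iff hdR.ne']
    exact hsum
  have hf : (0 : ℝ) < Module.finrank ℚ LL := by exact_mod_cast Module.finrank_pos
  rw [hMM] at hmain
  have h1 : 1 / 640 ≤ ((orb ζ α).card : ℝ) ^ 2 * quadMean z := by
    have h2 : (1 / 640) * (Module.finrank ℚ LL : ℝ) ≤
        (((orb ζ α).card : ℝ) ^ 2 * quadMean z) * Module.finrank ℚ LL := by
      linarith
    exact le_of_mul_le_mul_right h2 hf
  have h2 : ((orb ζ α).card : ℝ) ≤ (minpoly QAb z).natDegree := by exact_mod_cast hcard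
  exact h1.trans (mul_le_mul_of_nonneg_right (pow_le_pow_left₀ (Nat.cast_nonneg _) h2 2)
    (quadMean_nonneg z))

end Pool.Agent.W5h77.RQ
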