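import Mathlib

/-!
# Graeffe transforms and congruences modulo 2 and 4; square roots of power series
-/

set_option autoImplicit false

open Polynomial

namespace Pool.Agent.W5h77.RQ

section Comm

variable {A : Type} [CommRing A]

theorem coeff_comp_neg (P : A[X]) (n : ℕ) : (P.comp (-X)).coeff n = (-1) ^ n * P.coeff n := by
  have h : (-X : A[X]) = C (-1) * X := by simp
  rw [h]
  induction P using Polynomial.induction_on' with
  | add p q hp hq => rw [add_comp, coeff_add, hp, hq, coeff_add, mul_add]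
  | monomial k a =>
    rw [← C_mul_X_pow_eq_monomial, mul_comp, C_comp, X_pow_comp, mul_pow, ← C_pow,
      ← mul_assoc, ← C_mul, coeff_C_mul_X_pow, coeff_C_mul_X_pow]
    split_ifs with hk
    · rw [hk]; ring
    · simp

theorem comp_neg_comp_neg (P : A[X]) : (P.comp (-X)).comp (-X) = P := by
  rw [comp_assoc]
  simp

/-- the sum of `T(X)` and `T(-X)` is twice the even part of `T` -/
theorem even_part (T : A[X]) : T + T.comp (-X) = 2 * expand A 2 (contract 2 T) := by
  ext n
  have h2 : (2 : A[X]) = C 2 := rfl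
  rw [coeff_add, coeff_comp_neg, h2, coeff_C_mul, coeff_expand (by norm_num)]
  rcases Nat.even_or_odd n with h | h
  · rw [if_pos h.two_dvd, coeff_contract (by norm_num), Nat.div_mul_cancel h.two_dvd, h.neg_one_pow]
    ring
  · rw [if_neg (fun h' => (Nat.not_even_iff_odd.2 h) (even_iff_two_dvd.2 h')), h.neg_one_pow]
    ring

/-- `T(-X)` and `T(X)` are congruent modulo 2 -/
theorem odd_part (T : A[X]) : ∃ O : A[X], T.comp (-X) = T + 2 * O := by
  refine ⟨expand A 2 (contract 2 T) - T, ?_⟩
  have := even_part T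
  linear_combination this

/-- the even coefficients of a square are squares modulo 2 -/
theorem sq_coeff_two (P : A[X]) (n : ℕ) : ∃ w : A, (P ^ 2).coeff (n * 2) = P.coeff n ^ 2 + 2 * w := by
  induction P using Polynomial.induction_on' with
  | add p q hp hq =>
    obtain ⟨w1, h1⟩ := hp
    obtain ⟨w2, h2⟩ := hq
    have h3 : (p + q) ^ 2 = p ^ 2 + q ^ 2 + C 2 * (p * q) := by
      have h2 : (C 2 : A[X]) = 2 := rfl
      rw [h2]; ring
    refine ⟨w1 + w2 + (p * q).coeff (n * 2) - p.coeff n * q.coeff n, ?_⟩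
    rw [h3, coeff_add, coeff_add, h1, h2, coeff_C_mul, coeff_add]
    ring
  | monomial k a =>
    refine ⟨0, ?_⟩
    rw [monomial_pow, coeff_monomial, coeff_monomial]
    by_cases hk : k = n
    · rw [hk]; simp
    · rw [if_neg (by omega), if_neg hk]; simp

end Comm

section Dom

variable {A : Type} [CommRing A] [IsDomain A] [CharZero A]

theorem two_ne : (2 : A[X]) ≠ 0 := by
  have : (2 : A[X]) = C 2 := rfl
  rw [this, Ne, C_eq_zero]
  exact two_ne_zero

theorem even_expand (T : A[X]) (h : T.comp (-X) = T) : expand A 2 (contract 2 T) = T := by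
  have h1 := even_part T
  rw [h] at h1
  have h2 : (2 : A[X]) * expand A 2 (contract 2 T) = 2 * T := by
    rw [← h1]; ring
  exact mul_left_cancel₀ two_ne h2

/-- congruent modulo 2 implies that the Graeffe transforms are congruent modulo 4 -/
theorem graeffe_cong (P Q U P2 Q2 : A[X]) (h : P = Q + 2 * U)
    (hP : expand A 2 P2 = P * P.comp (-X)) (hQ : expand A 2 Q2 = Q * Q.comp (-X)) :
    ∃ W : A[X], P2 = Q2 + 4 * W := by
  set Um := U.comp (-X) with hUm
  set Qm := Q.comp (-X) with hQm
  have hPm : P.comp (-X) = Qm + 2 * Um := by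
    rw [h, add_comp, mul_comp]
    simp
    rfl
  have hT : Q * Um + U * Qm = 2 * expand A 2 (contract 2 (Q * Um)) := by
    rw [← even_part, mul_comp, hUm, comp_neg_comp_neg, hQm]
    ring
  have hV : expand A 2 (contract 2 (U * Um)) = U * Um := by
    apply even_expand
    rw [mul_comp, hUm, comp_neg_comp_neg]
    ring
  refine ⟨contract 2 (Q * Um) + contract 2 (U * Um), ?_⟩
  apply expand_injective (n := 2) (by norm_num)
  have h4 : (expand A 2) (4 : A[X]) = 4 := by
    exact map_ofNat (expand A 2) 4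
  rw [map_add, map_mul, map_add, hP, hQ, hV, hPm, h, h4]
  linear_combination 2 * hT

/-- the Graeffe transform and the Frobenius -/
theorem graeffe_frob (P P2 : A[X]) (hP : expand A 2 P2 = P * P.comp (-X)) (φ : A →+* A)
    (hφ : ∀ a, ∃ b, φ a = a ^ 2 + 2 * b) : ∃ W : A[X], P2 = P.map φ + 2 * W := by
  obtain ⟨O, hO⟩ := odd_part P
  have h1 : ∀ n, ∃ w : A, P2.coeff n = (P.map φ).coeff n + 2 * w := by
    intro n
    obtain ⟨w, hw⟩ := sq_coeff_two P n
    obtain ⟨b, hb⟩ := hφ (P.coeff n)
    have h2 : (expand A 2 P2).coeff (n * 2) = P2.coeff n := coeff_expand_mul (by norm_num) _ _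
    have h3 : P * (P + 2 * O) = P ^ 2 + C 2 * (P * O) := by
      have h2 : (C 2 : A[X]) = 2 := rfl
      rw [h2]; ring
    refine ⟨w + (P * O).coeff (n * 2) - b, ?_⟩
    rw [← h2, hP, hO, h3, coeff_add, hw, coeff_C_mul, coeff_map, hb]
    ring
  choose w hw using h1
  classical
  refine ⟨∑ n ∈ Finset.range (P2.natDegree + P.natDegree + 1), C (w n) * X ^ n, ?_⟩
  ext n
  have h2 : (2 : A[X]) = C 2 := rfl
  rw [coeff_add, h2, coeff_C_mul, finsetSum_coeff]
  simp only [coeff_C_mul_X_pow]
  rw [Finset.sum_ite_eq (Finset.range (P2.natDegree + P.natDegree + 1)) n (fun i => w i)]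
  split_ifs with hn
  · exact hw n
  · have hn' : P2.natDegree + P.natDegree < n := by
      rw [Finset.mem_range] at hn
      omega
    rw [coeff_eq_zero_of_natDegree_lt (by omega), coeff_map,
      coeff_eq_zero_of_natDegree_lt (by omega : P.natDegree < n)]
    simp

/-- two steps of the Graeffe transform and a Frobenius lift -/
theorem case_frob (P P2 P4 : A[X]) (h2 : expand A 2 P2 = P * P.comp (-X))
    (h4 : expand A 2 P4 = P2 * P2.comp (-X)) (φ : A →+* A)
    (hφ : ∀ a, ∃ b, φ a = a ^ 2 + 2 * b) : ∃ W : A[X], P4 = P2.map φ + 4 * W := by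
  obtain ⟨U, hU⟩ := graeffe_frob P P2 h2 φ hφ
  refine graeffe_cong P2 (P.map φ) U P4 (P2.map φ) hU h4 ?_
  rw [← map_expand, h2, Polynomial.map_mul, map_comp]
  simp

/-- one step of the Graeffe transform and an automorphism which is the identity modulo 2 -/
theorem case_triv (P P2 : A[X]) (h2 : expand A 2 P2 = P * P.comp (-X)) (τ : A →+* A)
    (hτ : ∀ a, ∃ b, a = τ a + 2 * b) : ∃ W : A[X], P2 = P2.map τ + 4 * W := by
  have h1 : ∃ U : A[X], P = P.map τ + 2 * U := by
    choose b hb using hτ
    classical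
    refine ⟨∑ n ∈ Finset.range (P.natDegree + 1), C (b (P.coeff n)) * X ^ n, ?_⟩
    ext n
    have h2 : (2 : A[X]) = C 2 := rfl
    rw [coeff_add, h2, coeff_C_mul, finsetSum_coeff]
    simp only [coeff_C_mul_X_pow]
    rw [Finset.sum_ite_eq (Finset.range (P.natDegree + 1)) n (fun i => b (P.coeff i))]
    split_ifs with hn
    · rw [coeff_map]
      exact hb _
    · have hn' : P.natDegree < n := by
        rw [Finset.mem_range] at hn
        omega
      rw [coeff_map, coeff_eq_zero_of_natDegree_lt hn']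
      simp
  obtain ⟨U, hU⟩ := h1
  refine graeffe_cong P (P.map τ) U P2 (P2.map τ) hU h2 ?_
  rw [← map_expand, h2, Polynomial.map_mul, map_comp]
  simp

end Dom

section Sqrt

variable {A : Type} [CommRing A]

/-- the solution of `w + w² = v` -/
noncomputable def wseq (V : ℕ → A) : ℕ → A
  | n => V n - ∑ p ∈ (Finset.HasAntidiagonal.antidiagonal n).attach,
      if h : p.1.1 < n ∧ p.1.2 < n then wseq V p.1.1 * wseq V p.1.2 else 0
termination_by n => n
decreasing_by
  · exact h.1
  · exact h.2

theorem wseq_eq (V : ℕ → A) (n : ℕ) : wseq V n = V n - ∑ p ∈ (Finset.HasAntidiagonal.antidiagonal n).attach,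
      if p.1.1 < n ∧ p.1.2 < n then wseq V p.1.1 * wseq V p.1.2 else 0 := by
  rw [wseq]
  congr 1

theorem wseq_zero (V : ℕ → A) (h0 : V 0 = 0) : wseq V 0 = 0 := by
  rw [wseq_eq, h0]
  simp

theorem wseq_quad (V : ℕ → A) (h0 : V 0 = 0) :
    PowerSeries.mk (wseq V) + (PowerSeries.mk (wseq V)) ^ 2 = PowerSeries.mk V := by
  ext n
  rw [map_add, sq, PowerSeries.coeff_mul]
  simp only [PowerSeries.coeff_mk]
  have hw := wseq_zero V h0
  rw [wseq_eq V n, ← Finset.sum_attach (Finset.HasAntidiagonal.antidiagonal n)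
    (fun p => wseq V p.1 * wseq V p.2), sub_add_eq_add_sub, sub_eq_iff_eq_add]
  congr 1
  refine Finset.sum_congr rfl fun p _ => ?_
  have hp := Finset.HasAntidiagonal.mem_antidiagonal.1 p.2
  split_ifs with h
  · rfl
  · have : p.1.1 = 0 ∨ p.1.2 = 0 := by omega
    rcases this with h1 | h1
    · rw [h1, hw, zero_mul]
    · rw [h1, hw, mul_zero]

/-- square roots of `R (R + 4 U)` -/
theorem exists_sqrt (R S U : A[X]) (hR : R.coeff 0 = 1) (hU : U.coeff 0 = 0) (h : S = R + 4 * U) :
    ∃ c : ℕ → A, c 0 = 1 ∧ (PowerSeries.mk c) ^ 2 = ((R * S : A[X]) : PowerSeries A) := by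
  set W : PowerSeries A := PowerSeries.invOfUnit (R : PowerSeries A) 1 with hW
  have hRW : (R : PowerSeries A) * W = 1 := by
    apply PowerSeries.mul_invOfUnit
    rw [Polynomial.constantCoeff_coe, hR]
    rfl
  set V : PowerSeries A := (U : PowerSeries A) * W with hV
  have hV0 : PowerSeries.coeff 0 V = 0 := by
    rw [PowerSeries.coeff_zero_eq_constantCoeff_apply, hV, map_mul, Polynomial.constantCoeff_coe,
      hU, zero_mul]
  set w : PowerSeries A := PowerSeries.mk (wseq fun n => PowerSeries.coeff n V) with hw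
  have hq : w + w ^ 2 = V := by
    rw [hw, wseq_quad _ hV0]
    ext n
    simp
  set f : PowerSeries A := (R : PowerSeries A) * (1 + 2 * w) with hf
  have hmk : PowerSeries.mk (fun n => PowerSeries.coeff n f) = f := by
    ext n
    simp
  refine ⟨fun n => PowerSeries.coeff n f, ?_, ?_⟩
  · simp only
    rw [PowerSeries.coeff_zero_eq_constantCoeff_apply, hf, map_mul, Polynomial.constantCoeff_coe,
      hR, one_mul, map_add, map_one, map_mul]
    have : PowerSeries.constantCoeff w = 0 := by
      rw [← PowerSeries.coeff_zero_eq_constantCoeff_apply, hw, PowerSeries.coeff_mk]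
      exact wseq_zero _ hV0
    rw [this]
    simp
  · rw [hmk, hf, Polynomial.coe_mul, h, Polynomial.coe_add, Polynomial.coe_mul]
    have h4 : ((4 : A[X]) : PowerSeries A) = 4 := by
      have h4 : (4 : A[X]) = C 4 := rfl
      rw [h4, Polynomial.coe_C]
      rfl
    rw [h4]
    calc ((R : PowerSeries A) * (1 + 2 * w)) ^ 2
        = (R : PowerSeries A) ^ 2 * (1 + 4 * (w + w ^ 2)) := by ring
      _ = (R : PowerSeries A) ^ 2 + 4 * (R : PowerSeries A) * (U : PowerSeries A) *
          ((R : PowerSeries A) * W) := by rw [hq, hV]; ring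
      _ = _ := by rw [hRW]; ring

end Sqrt

end Pool.Agent.W5h77.RQ
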