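import Pool.Agent.W5h77.RQ.Orb

/-!
# The quadratic mean inequality relative to roots of unity, in a Galois number field
-/

set_option autoImplicit false

open Polynomial

namespace Pool.Agent.W5h77.RQ

variable {L : Type} [Field L] [NumberField L] [IsGalois ℚ L]

theorem orb_ne_zero {ζ α x : L} (hα : α ≠ 0) (hx : x ∈ orb ζ α) : x ≠ 0 := by
  obtain ⟨g, -, rfl⟩ := mem_orb.1 hx
  intro h
  exact hα ((map_eq_zero g).1 h)

theorem orb_integral {ζ α x : L} (hα : IsIntegral ℤ α) (hx : x ∈ orb ζ α) : IsIntegral ℤ x := by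
  obtain ⟨g, -, rfl⟩ := mem_orb.1 hx
  exact hα.map g.toAlgHom

/-- squares are injective on the orbit if `-α` is not a conjugate of `α` -/
theorem sq_inj {ζ α : L} (hneg : -α ∉ orb ζ α) {x y : L} (hx : x ∈ orb ζ α) (hy : y ∈ orb ζ α)
    (h : x ^ 2 = y ^ 2) : x = y := by
  obtain ⟨g, hg, rfl⟩ := mem_orb.1 hx
  obtain ⟨k, hk, rfl⟩ := mem_orb.1 hy
  rcases sq_eq_sq_iff_eq_or_eq_neg.1 h with h1 | h1
  · exact h1
  · exfalso
    apply hneg
    refine mem_orb.2 ⟨k⁻¹ * g, ?_, ?_⟩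
    · rw [AlgEquiv.mul_apply, hg]
      calc (k⁻¹ : L ≃ₐ[ℚ] L) ζ = (k⁻¹ : L ≃ₐ[ℚ] L) (k ζ) := by rw [hk]
        _ = ζ := by simp
    · rw [AlgEquiv.mul_apply, h1, map_neg]
      congr 1
      simp

/-- Kronecker's theorem -/
theorem exists_big {α : L} (hα : IsIntegral ℤ α) (h0 : α ≠ 0) (hr : ∀ n : ℕ, 0 < n → α ^ n ≠ 1) :
    ∃ σ : L →+* ℂ, 1 < ‖σ α‖ := by
  by_contra h
  push Not at h
  obtain ⟨n, hn, h1⟩ := NumberField.Embeddings.pow_eq_one_of_norm_le_one L ℂ h0 hα h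
  exact hr n hn h1

/-- the Frobenius case: `2` is unramified -/
theorem odd_case {m : ℕ} (hm : Odd m) {ζ : L} (hζ : IsPrimitiveRoot ζ m) {α : L}
    (hα : IsIntegral ℤ α) (h0 : α ≠ 0) (hr : ∀ n : ℕ, 0 < n → α ^ n ≠ 1)
    (hneg : -α ∉ orb ζ α) :
    1 / 640 * (Module.finrank ℚ L : ℝ) ≤ ((orb ζ α).card : ℝ) ^ 2 * MM α := by
  classical
  by_contra hcon
  push Not at hcon
  have hm0 : 0 < m := hm.pos
  obtain ⟨g, hg⟩ := exists_aut hm0 hζ (k := 2) (Nat.coprime_two_left.2 hm)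
  obtain ⟨P1, hP1⟩ := lift_poly hm0 hζ hα 1
  obtain ⟨P2, hP2⟩ := lift_poly hm0 hζ hα 2
  obtain ⟨P4, hP4⟩ := lift_poly hm0 hζ hα 4
  have h12 : expand (ZZ ζ) 2 P2 = P1 * P1.comp (-X) := graeffe_rel hP1 hP2
  have h24 : expand (ZZ ζ) 2 P4 = P2 * P2.comp (-X) := graeffe_rel hP2 hP4
  have hgm : ∀ x ∈ ZZ ζ, (g : L →+* L) x ∈ ZZ ζ := by
    intro x hx
    apply map_mem ζ (g : L →+* L) _ hx
    change g ζ ∈ ZZ ζ
    rw [hg]
    exact pow_mem (self_mem ζ) 2
  set φ : ZZ ζ →+* ZZ ζ := RingHom.restrict (g : L →+* L) (ZZ ζ) (ZZ ζ) hgm with hφ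
  have hφv : ∀ a : ZZ ζ, ((φ a : ZZ ζ) : L) = g (a : L) := fun a => rfl
  have hφ2 : ∀ a : ZZ ζ, ∃ b, φ a = a ^ 2 + 2 * b := by
    intro a
    obtain ⟨b, hb, h1⟩ := frob_mem ζ (g : L →+* L) hg a.2
    refine ⟨⟨b, hb⟩, Subtype.ext ?_⟩
    rw [hφv]
    exact h1
  obtain ⟨W, hW⟩ := case_frob P1 P2 P4 h12 h24 φ hφ2
  have hmapφ : (P2.map φ).map (algebraMap (ZZ ζ) L) = ∏ x ∈ orb ζ α, (1 - C (g x ^ 2) * X) := by
    have h1 : (P2.map φ).map (algebraMap (ZZ ζ) L) =
        (P2.map (algebraMap (ZZ ζ) L)).map (g : L →+* L) := by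
      rw [Polynomial.map_map, Polynomial.map_map]
      congr 1
    rw [h1, hP2, Polynomial.map_prod]
    refine Finset.prod_congr rfl fun x _ => ?_
    simp
  have hc0 : ∀ (P : (ZZ ζ)[X]) (b : L → L),
      P.map (algebraMap (ZZ ζ) L) = ∏ x ∈ orb ζ α, (1 - C (b x) * X) → P.coeff 0 = 1 := by
    intro P b hP
    apply mapinj ζ
    rw [← coeff_map, hP, coeff_zero_prod, map_one]
  -- the family of zeros
  set κ := ({x // x ∈ orb ζ α} ⊕ {x // x ∈ orb ζ α}) with hκ
  set a : κ → L := Sum.elim (fun x => g x.1 ^ 2) (fun x => x.1 ^ 4) with ha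
  haveI : Nonempty {x // x ∈ orb ζ α} := ⟨⟨α, self_mem_orb ζ α⟩⟩
  have ha0 : ∀ i, a i ≠ 0 := by
    intro i
    rw [ha]
    rcases i with i | i
    · apply pow_ne_zero
      intro h
      exact orb_ne_zero h0 i.2 ((map_eq_zero g).1 h)
    · exact pow_ne_zero _ (orb_ne_zero h0 i.2)
  have hprod : ((P2.map φ) * P4).map (algebraMap (ZZ ζ) L) = ∏ i, (1 - C (a i) * X) := by
    rw [Polynomial.map_mul, hmapφ, hP4, Fintype.prod_sum_type, ha]
    simp only [Sum.elim_inl, Sum.elim_inr]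
    rw [Finset.prod_coe_sort (orb ζ α) (fun x => (1 - C (g x ^ 2) * X : L[X])),
      Finset.prod_coe_sort (orb ζ α) (fun x => (1 - C (x ^ 4) * X : L[X]))]
  have hsum : ∑ i, MM (a i) = (orb ζ α).card * (20 * MM α) := by
    rw [Fintype.sum_sum_type, ha]
    simp only [Sum.elim_inl, Sum.elim_inr]
    have e1 : ∀ x : {x // x ∈ orb ζ α}, MM (g x.1 ^ 2) = 4 * MM α := by
      intro x
      rw [MM_pow, MM_aut, MM_orb x.2]
      norm_num
    have e2 : ∀ x : {x // x ∈ orb ζ α}, MM (x.1 ^ 4) = 16 * MM α := by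
      intro x
      rw [MM_pow, MM_orb x.2]
      norm_num
    simp only [e1, e2, Finset.sum_const, Finset.card_univ, Fintype.card_coe, nsmul_eq_mul]
    ring
  have hcard : (Fintype.card κ : ℝ) = 2 * (orb ζ α).card := by
    have h1 : Fintype.card κ = Fintype.card {x // x ∈ orb ζ α} + Fintype.card {x // x ∈ orb ζ α} :=
      Fintype.card_sum
    rw [h1, Fintype.card_coe]
    push_cast
    ring
  have hpar := parity (hζ.isIntegral hm0) a ha0 (P2.map φ) P4 W (hc0 _ _ hmapφ) (hc0 _ _ hP4) hW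
    hprod (by
      rw [hcard, hsum]
      nlinarith)
  -- every `g y ^ 2` is some `x ^ 4`
  have hex : ∀ y : {x // x ∈ orb ζ α}, ∃ x : {x // x ∈ orb ζ α}, x.1 ^ 4 = g y.1 ^ 2 := by
    intro y
    by_contra hno
    push Not at hno
    have h1 := hpar (g y.1 ^ 2)
    have h2 : Nat.card {i : κ // a i = g y.1 ^ 2} = 1 := by
      rw [Nat.card_eq_one_iff_exists]
      refine ⟨⟨Sum.inl y, by rw [ha]; rfl⟩, ?_⟩
      rintro ⟨i, hi⟩
      rcases i with i | i
      · have h3 : g i.1 ^ 2 = g y.1 ^ 2 := hi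
        have h4 : i.1 ^ 2 = y.1 ^ 2 := by
          apply g.injective
          rw [map_pow, map_pow, h3]
        have h5 : i = y := Subtype.ext (sq_inj hneg i.2 y.2 h4)
        exact Subtype.ext (congrArg Sum.inl h5)
      · exact absurd hi (hno i)
    rw [h2] at h1
    exact absurd h1 (by decide)
  choose j hj using hex
  have hjinj : Function.Injective j := by
    intro y y' h
    have h3 : g y.1 ^ 2 = g y'.1 ^ 2 := by rw [← hj y, ← hj y', h]
    have h4 : y.1 ^ 2 = y'.1 ^ 2 := by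
      apply g.injective
      rw [map_pow, map_pow, h3]
    exact Subtype.ext (sq_inj hneg y.2 y'.2 h4)
  have hjs := Finite.surjective_of_injective hjinj
  obtain ⟨y, hy⟩ := hjs ⟨α, self_mem_orb ζ α⟩
  have h1 : α ^ 4 = g y.1 ^ 2 := by
    have := hj y
    rw [hy] at this
    exact this
  obtain ⟨h, hh, hhy⟩ := mem_orb.1 y.2
  obtain ⟨σ0, hσ0⟩ := exists_big hα h0 hr
  obtain ⟨σ, hσ⟩ := Finite.exists_max (fun σ : L →+* ℂ => ‖σ α‖)
  have h2 : 1 < ‖σ α‖ := hσ0.trans_le (hσ σ0)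
  have h3 : ‖σ (g (h α))‖ ≤ ‖σ α‖ :=
    hσ ((σ.comp (g : L →+* L)).comp (h : L →+* L))
  have h4 := congrArg (fun x => ‖σ x‖) h1
  simp only [map_pow, norm_pow, ← hhy] at h4
  have h5 : ‖σ (g (h α))‖ ^ 2 ≤ ‖σ α‖ ^ 2 := pow_le_pow_left₀ (norm_nonneg _) h3 2
  have h6 : ‖σ α‖ ^ 2 < ‖σ α‖ ^ 4 := pow_lt_pow_right₀ h2 (by norm_num)
  linarith

/-- the ramified case -/
theorem even_case {m : ℕ} (hm : 0 < m) {ζ : L} (hζ : IsPrimitiveRoot ζ m) {α : L}
    (hα : IsIntegral ℤ α) (h0 : α ≠ 0) (hneg : -α ∉ orb ζ α) (g : L ≃ₐ[ℚ] L) (hg : g ζ = -ζ)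
    (hcon : ((orb ζ α).card : ℝ) ^ 2 * MM α < 1 / 640 * (Module.finrank ℚ L : ℝ)) :
    ∃ h : L ≃ₐ[ℚ] L, h ζ = -ζ ∧ (h α = α ∨ h α = -α) := by
  classical
  obtain ⟨P1, hP1⟩ := lift_poly hm hζ hα 1
  obtain ⟨P2, hP2⟩ := lift_poly hm hζ hα 2
  have h12 : expand (ZZ ζ) 2 P2 = P1 * P1.comp (-X) := graeffe_rel hP1 hP2
  have hgm : ∀ x ∈ ZZ ζ, (g : L →+* L) x ∈ ZZ ζ := by
    intro x hx
    apply map_mem ζ (g : L →+* L) _ hx
    change g ζ ∈ ZZ ζ
    rw [hg]
    exact neg_mem (self_mem ζ)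
  set φ : ZZ ζ →+* ZZ ζ := RingHom.restrict (g : L →+* L) (ZZ ζ) (ZZ ζ) hgm with hφ
  have hφv : ∀ a : ZZ ζ, ((φ a : ZZ ζ) : L) = g (a : L) := fun a => rfl
  have hφ2 : ∀ a : ZZ ζ, ∃ b, a = φ a + 2 * b := by
    intro a
    obtain ⟨b, hb, h1⟩ := triv_mem ζ (g : L →+* L) hg a.2
    refine ⟨⟨b, hb⟩, Subtype.ext ?_⟩
    exact h1
  obtain ⟨W, hW⟩ := case_triv P1 P2 h12 φ hφ2
  have hmapφ : (P2.map φ).map (algebraMap (ZZ ζ) L) = ∏ x ∈ orb ζ α, (1 - C (g x ^ 2) * X) := by
    have h1 : (P2.map φ).map (algebraMap (ZZ ζ) L) =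
        (P2.map (algebraMap (ZZ ζ) L)).map (g : L →+* L) := by
      rw [Polynomial.map_map, Polynomial.map_map]
      congr 1
    rw [h1, hP2, Polynomial.map_prod]
    refine Finset.prod_congr rfl fun x _ => ?_
    simp
  have hc0 : ∀ (P : (ZZ ζ)[X]) (b : L → L),
      P.map (algebraMap (ZZ ζ) L) = ∏ x ∈ orb ζ α, (1 - C (b x) * X) → P.coeff 0 = 1 := by
    intro P b hP
    apply mapinj ζ
    rw [← coeff_map, hP, coeff_zero_prod, map_one]
  set κ := ({x // x ∈ orb ζ α} ⊕ {x // x ∈ orb ζ α}) with hκ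
  set a : κ → L := Sum.elim (fun x => g x.1 ^ 2) (fun x => x.1 ^ 2) with ha
  haveI : Nonempty {x // x ∈ orb ζ α} := ⟨⟨α, self_mem_orb ζ α⟩⟩
  have ha0 : ∀ i, a i ≠ 0 := by
    intro i
    rw [ha]
    rcases i with i | i
    · apply pow_ne_zero
      intro h
      exact orb_ne_zero h0 i.2 ((map_eq_zero g).1 h)
    · exact pow_ne_zero _ (orb_ne_zero h0 i.2)
  have hprod : ((P2.map φ) * P2).map (algebraMap (ZZ ζ) L) = ∏ i, (1 - C (a i) * X) := by
    rw [Polynomial.map_mul, hmapφ, hP2, Fintype.prod_sum_type, ha]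
    simp only [Sum.elim_inl, Sum.elim_inr]
    rw [Finset.prod_coe_sort (orb ζ α) (fun x => (1 - C (g x ^ 2) * X : L[X])),
      Finset.prod_coe_sort (orb ζ α) (fun x => (1 - C (x ^ 2) * X : L[X]))]
  have hsum : ∑ i, MM (a i) = (orb ζ α).card * (8 * MM α) := by
    rw [Fintype.sum_sum_type, ha]
    simp only [Sum.elim_inl, Sum.elim_inr]
    have e1 : ∀ x : {x // x ∈ orb ζ α}, MM (g x.1 ^ 2) = 4 * MM α := by
      intro x
      rw [MM_pow, MM_aut, MM_orb x.2]
      norm_num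
    have e2 : ∀ x : {x // x ∈ orb ζ α}, MM (x.1 ^ 2) = 4 * MM α := by
      intro x
      rw [MM_pow, MM_orb x.2]
      norm_num
    simp only [e1, e2, Finset.sum_const, Finset.card_univ, Fintype.card_coe, nsmul_eq_mul]
    ring
  have hcard : (Fintype.card κ : ℝ) = 2 * (orb ζ α).card := by
    have h1 : Fintype.card κ = Fintype.card {x // x ∈ orb ζ α} + Fintype.card {x // x ∈ orb ζ α} :=
      Fintype.card_sum
    rw [h1, Fintype.card_coe]
    push_cast
    ring
  have hpar := parity (hζ.isIntegral hm) a ha0 (P2.map φ) P2 W (hc0 _ _ hmapφ) (hc0 _ _ hP2) hW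
    hprod (by
      rw [hcard, hsum]
      have hN : 0 ≤ ((orb ζ α).card : ℝ) ^ 2 * MM α := mul_nonneg (sq_nonneg _) (MM_nonneg α)
      nlinarith)
  -- `α ^ 2` is some `g y ^ 2`
  have hex : ∃ y : {x // x ∈ orb ζ α}, g y.1 ^ 2 = α ^ 2 := by
    by_contra hno
    push Not at hno
    have h1 := hpar (α ^ 2)
    have h2 : Nat.card {i : κ // a i = α ^ 2} = 1 := by
      rw [Nat.card_eq_one_iff_exists]
      refine ⟨⟨Sum.inr ⟨α, self_mem_orb ζ α⟩, by rw [ha]; rfl⟩, ?_⟩
      rintro ⟨i, hi⟩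
      rcases i with i | i
      · exact absurd hi (hno i)
      · have h3 : i.1 ^ 2 = α ^ 2 := hi
        have h5 : i = ⟨α, self_mem_orb ζ α⟩ := Subtype.ext (sq_inj hneg i.2 (self_mem_orb ζ α) h3)
        exact Subtype.ext (congrArg Sum.inr h5)
    rw [h2] at h1
    exact absurd h1 (by decide)
  obtain ⟨y, hy⟩ := hex
  obtain ⟨h, hh, hhy⟩ := mem_orb.1 y.2
  refine ⟨g * h, by rw [AlgEquiv.mul_apply, hh, hg], ?_⟩
  rw [AlgEquiv.mul_apply, hhy]
  exact sq_eq_sq_iff_eq_or_eq_neg.1 hy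

/-- the square of `α` has at most half as many conjugates if `-α` is a conjugate -/
theorem card_sq {ζ α : L} (h0 : α ≠ 0) (hneg : -α ∈ orb ζ α) :
    2 * (orb ζ (α ^ 2)).card ≤ (orb ζ α).card := by
  classical
  have h1 : orb ζ (α ^ 2) = (orb ζ α).image fun x => x ^ 2 := by
    ext x
    rw [Finset.mem_image, mem_orb]
    constructor
    · rintro ⟨g, hg, rfl⟩
      exact ⟨g α, mem_orb.2 ⟨g, hg, rfl⟩, by rw [map_pow]⟩
    · rintro ⟨y, hy, rfl⟩
      obtain ⟨g, hg, rfl⟩ := mem_orb.1 hy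
      exact ⟨g, hg, by rw [map_pow]⟩
  rw [h1]
  apply Finset.mul_card_image_le_card
  intro a ha
  obtain ⟨x, hx, rfl⟩ := Finset.mem_image.1 ha
  have hx0 : x ≠ 0 := orb_ne_zero h0 hx
  have hnx : -x ∈ orb ζ α := by
    obtain ⟨g, hg, rfl⟩ := mem_orb.1 hx
    rw [← map_neg]
    exact orb_stable hg hneg
  have h2 : ({x, -x} : Finset L) ⊆ (orb ζ α).filter fun y => y ^ 2 = x ^ 2 := by
    intro y hy
    rw [Finset.mem_insert, Finset.mem_singleton] at hy
    rw [Finset.mem_filter]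
    rcases hy with rfl | rfl
    · exact ⟨hx, rfl⟩
    · exact ⟨hnx, by ring⟩
  have h3 : ({x, -x} : Finset L).card = 2 := by
    rw [Finset.card_pair]
    intro h
    apply hx0
    have : (2 : L) * x = 0 := by linear_combination h
    rcases mul_eq_zero.1 this with h4 | h4
    · exact absurd h4 two_ne_zero
    · exact h4
  calc 2 = ({x, -x} : Finset L).card := h3.symm
    _ ≤ _ := Finset.card_le_card h2

/-- the orbit of the stabiliser of `ζ ^ 2` -/
theorem orb_sq {ζ α : L} (h : L ≃ₐ[ℚ] L) (hh : h ζ = -ζ) (hα : h α = α) :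
    orb (ζ ^ 2) α = orb ζ α := by
  ext x
  rw [mem_orb, mem_orb]
  constructor
  · rintro ⟨g, hg, rfl⟩
    rw [map_pow] at hg
    rcases sq_eq_sq_iff_eq_or_eq_neg.1 hg with h1 | h1
    · exact ⟨g, h1, rfl⟩
    · refine ⟨g * h, ?_, ?_⟩
      · rw [AlgEquiv.mul_apply, hh, map_neg, h1, neg_neg]
      · rw [AlgEquiv.mul_apply, hα]
  · rintro ⟨g, hg, rfl⟩
    exact ⟨g, by rw [map_pow, hg], rfl⟩

theorem orb_mul {ζ α : L} : (orb ζ (ζ * α)).card ≤ (orb ζ α).card := by
  classical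
  have h1 : orb ζ (ζ * α) ⊆ (orb ζ α).image fun x => ζ * x := by
    intro x hx
    obtain ⟨g, hg, rfl⟩ := mem_orb.1 hx
    rw [map_mul, hg]
    exact Finset.mem_image.2 ⟨g α, mem_orb.2 ⟨g, hg, rfl⟩, rfl⟩
  exact (Finset.card_le_card h1).trans Finset.card_image_le

theorem MM_mul {m : ℕ} (hm : 0 < m) {ζ : L} (hζ : IsPrimitiveRoot ζ m) (α : L) :
    MM (ζ * α) = MM α := by
  unfold MM
  refine Finset.sum_congr rfl fun σ _ => ?_
  rw [map_mul, norm_mul]
  have h1 : ‖σ ζ‖ = 1 := by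
    have h2 : σ ζ ^ m = 1 := by rw [← map_pow, hζ.pow_eq_one, map_one]
    exact Complex.norm_eq_one_of_pow_eq_one h2 hm.ne'
  rw [h1, one_mul]

/-- the main inequality in a Galois number field -/
theorem main_galois (N : ℕ) : ∀ (m : ℕ) (ζ α : L), (orb ζ α).card + m ≤ N → 0 < m →
    IsPrimitiveRoot ζ m → IsIntegral ℤ α → α ≠ 0 → (∀ n : ℕ, 0 < n → α ^ n ≠ 1) →
    1 / 640 * (Module.finrank ℚ L : ℝ) ≤ ((orb ζ α).card : ℝ) ^ 2 * MM α := by
  induction N using Nat.strong_induction_on with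
  | _ N ih =>
    intro m ζ α hN hm hζ hα h0 hr
    by_cases hneg : -α ∈ orb ζ α
    · -- pass to the square
      have h1 := card_sq h0 hneg
      have hpos : 0 < (orb ζ (α ^ 2)).card := Finset.card_pos.2 (orb_nonempty _ _)
      have h2 := ih ((orb ζ (α ^ 2)).card + m) (by omega) m ζ (α ^ 2) le_rfl hm hζ (hα.pow 2)
        (pow_ne_zero 2 h0) (by
          intro n hn h
          rw [← pow_mul] at h
          exact hr (2 * n) (by omega) h)
      rw [MM_pow] at h2
      have h3 : (2 * ((orb ζ (α ^ 2)).card : ℝ)) ≤ (orb ζ α).card := by exact_mod_cast h1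
      have h4 : (2 * ((orb ζ (α ^ 2)).card : ℝ)) ^ 2 ≤ ((orb ζ α).card : ℝ) ^ 2 :=
        pow_le_pow_left₀ (by positivity) h3 2
      calc 1 / 640 * (Module.finrank ℚ L : ℝ)
          ≤ ((orb ζ (α ^ 2)).card : ℝ) ^ 2 * ((2 : ℕ) ^ 2 * MM α) := by exact_mod_cast h2
        _ = (2 * ((orb ζ (α ^ 2)).card : ℝ)) ^ 2 * MM α := by push_cast; ring
        _ ≤ _ := mul_le_mul_of_nonneg_right h4 (MM_nonneg α)
    · rcases Nat.even_or_odd m with hev | hodd
      · -- even order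
        obtain ⟨k, hk⟩ := hev
        have hk0 : 0 < k := by omega
        have hζ2 : IsPrimitiveRoot (ζ ^ 2) k := hζ.pow hm (by omega)
        rcases Nat.even_or_odd k with hkev | hkodd
        · -- `4 ∣ m`
          by_contra hcon
          push Not at hcon
          have hζk : ζ ^ k = -1 := by
            have h1 : (ζ ^ k) ^ 2 = 1 := by rw [← pow_mul, show k * 2 = m by omega, hζ.pow_eq_one]
            rcases sq_eq_sq_iff_eq_or_eq_neg.1 (h1.trans (one_pow 2).symm) with h2 | h2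
            · exfalso
              have := hζ.dvd_of_pow_eq_one k h2
              have := Nat.le_of_dvd hk0 this
              omega
            · exact h2
          obtain ⟨g, hg⟩ := exists_aut hm hζ (k := 1 + k) (by
            rw [hk]
            obtain ⟨l, hl⟩ := hkev
            have h1 : Nat.Coprime (1 + k) k := by simp
            have h2 : Nat.Coprime (1 + k) 2 := by
              rw [Nat.coprime_two_right]
              exact ⟨l, by omega⟩
            rw [← mul_two]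
            exact Nat.Coprime.mul_right h1 h2)
          have hg' : g ζ = -ζ := by rw [hg, pow_add, hζk]; ring
          obtain ⟨h, hh, hhα⟩ := even_case hm hζ hα h0 hneg g hg' hcon
          rcases hhα with h1 | h1
          · have h2 := orb_sq h hh h1
            have h3 := ih ((orb (ζ ^ 2) α).card + k) (by rw [h2]; omega) k (ζ ^ 2) α le_rfl hk0 hζ2
              hα h0 hr
            rw [h2] at h3
            linarith
          · have h1' : h (ζ * α) = ζ * α := by rw [map_mul, hh, h1]; ring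
            have h2 := orb_sq h hh h1'
            have h4 := orb_mul (ζ := ζ) (α := α)
            have hζ0 : ζ ≠ 0 := hζ.ne_zero hm.ne'
            have h3 := ih ((orb (ζ ^ 2) (ζ * α)).card + k) (by rw [h2]; omega) k (ζ ^ 2) (ζ * α)
              le_rfl hk0 hζ2 ((hζ.isIntegral hm).mul hα) (mul_ne_zero hζ0 h0) (by
                intro n hn h5
                apply hr (n * m) (Nat.mul_pos hn hm)
                have h6 : (ζ * α) ^ (n * m) = 1 := by rw [pow_mul, h5, one_pow]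
                have h7 : ζ ^ (n * m) = 1 := by rw [mul_comm, pow_mul, hζ.pow_eq_one, one_pow]
                rw [mul_pow, h7, one_mul] at h6
                exact h6)
            rw [h2, MM_mul hm hζ] at h3
            have h5 : ((orb ζ (ζ * α)).card : ℝ) ≤ (orb ζ α).card := by exact_mod_cast h4
            have h6 : ((orb ζ (ζ * α)).card : ℝ) ^ 2 * MM α ≤ ((orb ζ α).card : ℝ) ^ 2 * MM α :=
              mul_le_mul_of_nonneg_right (pow_le_pow_left₀ (by positivity) h5 2) (MM_nonneg α)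
            linarith
        · -- `m = 2 k` with `k` odd
          have h2 : orb (ζ ^ 2) α = orb ζ α := by
            ext x
            rw [mem_orb, mem_orb]
            constructor
            · rintro ⟨g, hg, rfl⟩
              refine ⟨g, ?_, rfl⟩
              have e1 : ζ = -((ζ ^ 2) ^ ((k + 1) / 2)) := by
                obtain ⟨l, hl⟩ := hkodd
                have hζk : ζ ^ k = -1 := by
                  have h1 : (ζ ^ k) ^ 2 = 1 := by
                    rw [← pow_mul, show k * 2 = m by omega, hζ.pow_eq_one]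
                  rcases sq_eq_sq_iff_eq_or_eq_neg.1 (h1.trans (one_pow 2).symm) with h2 | h2
                  · exfalso
                    have := hζ.dvd_of_pow_eq_one k h2
                    have := Nat.le_of_dvd hk0 this
                    omega
                  · exact h2
                rw [← pow_mul, show 2 * ((k + 1) / 2) = k + 1 by omega, pow_succ, hζk]
                ring
              have e2 := congrArg g e1
              rw [map_neg, map_pow, hg, ← e1] at e2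
              exact e2
            · rintro ⟨g, hg, rfl⟩
              exact ⟨g, by rw [map_pow, hg], rfl⟩
          have h3 := ih ((orb (ζ ^ 2) α).card + k) (by rw [h2]; omega) k (ζ ^ 2) α le_rfl hk0 hζ2
            hα h0 hr
          rw [h2] at h3
          exact h3
      · exact odd_case hodd hζ hα h0 hr hneg

end Pool.Agent.W5h77.RQ
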