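import Pool.Agent.W5h77.RQ.An
import Pool.Agent.H904L2.NotSquare

/-!
# Square roots of polynomials over the integers of a number field: the rationality criterion
-/

set_option autoImplicit false

open Polynomial
open scoped Real

namespace Pool.Agent.W5h77.RQ

open H904L2

/-- an algebraic integer all of whose conjugates have product of size less than one vanishes -/
theorem int_eq_zero {L : Type} [Field L] [NumberField L] (D : NumberField.RingOfIntegers L)
    (h : ∏ σ : L →+* ℂ, ‖σ (D : L)‖ < 1) : D = 0 := by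
  by_contra hD
  have hD' : (D : L) ≠ 0 := by
    intro h0
    exact hD (NumberField.RingOfIntegers.coe_eq_zero_iff.1 h0)
  have h1 : Algebra.norm ℚ (D : L) = ((Algebra.norm ℤ D : ℤ) : ℚ) := by
    exact (Algebra.coe_norm_int D).symm
  have h2 : Algebra.norm ℤ D ≠ 0 := by
    intro h0
    rw [h0, Int.cast_zero, Algebra.norm_eq_zero_iff] at h1
    exact hD' h1
  have h3 : algebraMap ℚ ℂ (Algebra.norm ℚ (D : L)) = ∏ σ : L →ₐ[ℚ] ℂ, σ (D : L) :=
    Algebra.norm_eq_prod_embeddings ℚ ℂ (D : L)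
  have h4 : ∏ σ : L →+* ℂ, ‖σ (D : L)‖ = ∏ σ : L →ₐ[ℚ] ℂ, ‖σ (D : L)‖ := by
    refine Fintype.prod_equiv (RingHom.equivRatAlgHom L ℂ) _ _ fun σ => ?_
    rfl
  rw [h4, ← norm_prod, ← h3, h1] at h
  have h5 : ‖((Algebra.norm ℤ D : ℤ) : ℂ)‖ < 1 := by simpa using h
  rw [Complex.norm_intCast] at h5
  have h6 : |Algebra.norm ℤ D| < 1 := by exact_mod_cast h5
  exact h2 (Int.abs_lt_one_iff.1 h6)

/-- a sum of exponents which is negative -/
theorem all_large {σs : Type} [Fintype σs] (P : σs → ℕ → Prop)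
    (h : ∀ σ, ∃ N0 : ℕ, ∀ N, N0 ≤ N → P σ N) : ∃ N0 : ℕ, ∀ N, N0 ≤ N → ∀ σ, P σ N := by
  classical
  choose N0 hN0 using h
  refine ⟨∑ σ, N0 σ, fun N hN σ => hN0 σ N (le_trans ?_ hN)⟩
  exact Finset.single_le_sum (f := N0) (fun _ _ => Nat.zero_le _) (Finset.mem_univ σ)

theorem Fval_sum {σs : Type} [Fintype σs] (n : ℕ) (s : σs → ℝ) :
    ∑ σ, Fval n (s σ) =
      π⁻¹ * (4411 / 560 * (∑ σ, s σ) - 105 / 2048 * (π ^ 2 / n) * Fintype.card σs) := by
  unfold Fval
  rw [← Finset.mul_sum, Finset.sum_sub_distrib, ← Finset.mul_sum, Finset.sum_const,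
    Finset.card_univ, nsmul_eq_mul]
  ring

theorem Fval_sum_neg {σs : Type} [Fintype σs] (hc : 0 < Fintype.card σs) (n : ℕ) (hn : 0 < n)
    (s : σs → ℝ) (h : (n : ℝ) * ∑ σ, s σ < 1 / 16 * Fintype.card σs) :
    ∑ σ, Fval n (s σ) < 0 := by
  rw [Fval_sum]
  have hπ2 : 9.8 < π ^ 2 := by
    have := Real.pi_gt_d4
    nlinarith
  have hn' : (0 : ℝ) < n := by exact_mod_cast hn
  have hc' : (0 : ℝ) < Fintype.card σs := by exact_mod_cast hc
  apply mul_neg_of_pos_of_neg (inv_pos.2 Real.pi_pos)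
  have h1 : 4411 / 560 * ((n : ℝ) * ∑ σ, s σ) < 105 / 2048 * π ^ 2 * Fintype.card σs := by
    calc 4411 / 560 * ((n : ℝ) * ∑ σ, s σ) < 4411 / 560 * (1 / 16 * Fintype.card σs) :=
          mul_lt_mul_of_pos_left h (by norm_num)
      _ ≤ 105 / 2048 * 9.8 * Fintype.card σs := by
          have : (4411 / 560 * (1 / 16) : ℝ) ≤ 105 / 2048 * 9.8 := by norm_num
          nlinarith
      _ ≤ _ := by
          apply mul_le_mul_of_nonneg_right _ hc'.le
          linarith
  have h2 : 4411 / 560 * (∑ σ, s σ) - 105 / 2048 * (π ^ 2 / n) * Fintype.card σs =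
      (4411 / 560 * ((n : ℝ) * ∑ σ, s σ) - 105 / 2048 * π ^ 2 * Fintype.card σs) / n := by
    field_simp
  rw [h2]
  exact div_neg_of_neg_of_pos (by linarith) hn'

/-- the rationality criterion -/
theorem rational {L : Type} [Field L] [NumberField L] {κ : Type} [Fintype κ] [Nonempty κ]
    (a : κ → L) (ha : ∀ i, a i ≠ 0) (c : ℕ → NumberField.RingOfIntegers L) (hc0 : c 0 = 1)
    (hc : (PowerSeries.mk fun n => (c n : L)) ^ 2 =
      ((∏ i, (1 - C (a i) * X) : L[X]) : PowerSeries L))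
    (hs : (Fintype.card κ : ℝ) * ∑ σ : L →+* ℂ, ∑ i, (Real.posLog ‖σ (a i)‖) ^ 2 <
      1 / 16 * Module.finrank ℚ L) (σ : L →+* ℂ) :
    ∃ P Q : ℂ[X], Q ≠ 0 ∧ Q ^ 2 * ∏ i, (1 - C (σ (a i)) * X) = P ^ 2 := by
  classical
  have hcard : Fintype.card (L →+* ℂ) = Module.finrank ℚ L := NumberField.Embeddings.card L ℂ
  have hcpos : 0 < Fintype.card (L →+* ℂ) := by
    rw [hcard]
    exact Module.finrank_pos
  have hF : ∑ τ : L →+* ℂ, Fval (Fintype.card κ) (∑ i, (Real.posLog ‖τ (a i)‖) ^ 2) < 0 := by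
    apply Fval_sum_neg hcpos _ Fintype.card_pos
    rw [hcard]
    exact hs
  have hcσ : ∀ τ : L →+* ℂ, (PowerSeries.mk fun n => τ (c n : L)) ^ 2 =
      ((∏ i, (1 - C (τ (a i)) * X) : ℂ[X]) : PowerSeries ℂ) := by
    intro τ
    have h1 := congrArg (PowerSeries.map τ) hc
    rw [map_pow] at h1
    have h2 : PowerSeries.map τ (PowerSeries.mk fun n => (c n : L)) =
        PowerSeries.mk fun n => τ (c n : L) := by
      ext n
      rw [PowerSeries.coeff_map, PowerSeries.coeff_mk, PowerSeries.coeff_mk]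
    rw [h2] at h1
    rw [h1, ← Polynomial.polynomial_map_coe]
    congr 1
    rw [Polynomial.map_prod]
    refine Finset.prod_congr rfl fun i _ => ?_
    simp
  set m : ℝ := (Fintype.card (L →+* ℂ) : ℝ) with hm
  have hm0 : 0 < m := by rw [hm]; exact_mod_cast hcpos
  set Ft : ℝ := ∑ τ : L →+* ℂ, Fval (Fintype.card κ) (∑ i, (Real.posLog ‖τ (a i)‖) ^ 2) with hFt
  obtain ⟨η, hη0, hη⟩ : ∃ η : ℝ, 0 < η ∧ Ft + m * η < 0 := by
    refine ⟨-Ft / (2 * m), by apply div_pos <;> linarith, ?_⟩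
    have : m * (-Ft / (2 * m)) = -Ft / 2 := by field_simp
    rw [this]
    linarith
  obtain ⟨N0, hN0⟩ := all_large (fun (τ : L →+* ℂ) (N : ℕ) =>
      ‖(Matrix.of fun i j : Fin N => τ (c ((i : ℕ) + (j : ℕ)) : L)).det‖ ≤
        Real.exp ((N : ℝ) ^ 2 *
          (Fval (Fintype.card κ) (∑ i, (Real.posLog ‖τ (a i)‖) ^ 2) + η)))
    (fun τ => hankel_bound (fun i => τ (a i)) (fun i => by
        rw [Ne, map_eq_zero]
        exact ha i) (fun n => τ (c n : L)) (by rw [hc0]; simp) (hcσ τ) η hη0)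
  have hdet : ∀ (N : ℕ) (τ : L →+* ℂ),
      (Matrix.of fun i j : Fin N => τ (c ((i : ℕ) + (j : ℕ)) : L)).det =
        τ (((Matrix.of fun i j : Fin N => c ((i : ℕ) + (j : ℕ))).det :
          NumberField.RingOfIntegers L) : L) := by
    intro N τ
    have h1 : (Matrix.of fun i j : Fin N => τ (c ((i : ℕ) + (j : ℕ)) : L)) =
        ((τ.comp (algebraMap (NumberField.RingOfIntegers L) L)).mapMatrix
          (Matrix.of fun i j : Fin N => c ((i : ℕ) + (j : ℕ)))) := by
      ext i j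
      rfl
    rw [h1, ← RingHom.map_det]
    rfl
  have hzero : ∀ N, max N0 1 ≤ N →
      (Matrix.of fun i j : Fin N => c ((i : ℕ) + (j : ℕ))).det = 0 := by
    intro N hN
    have hN1 : N0 ≤ N := (le_max_left _ _).trans hN
    have hN2 : 0 < N := (le_max_right N0 1).trans hN
    apply int_eq_zero
    have h1 := hN0 N hN1
    have hNR : (0 : ℝ) < N := by exact_mod_cast hN2
    calc ∏ τ : L →+* ℂ, ‖τ (((Matrix.of fun i j : Fin N => c ((i : ℕ) + (j : ℕ))).det :
          NumberField.RingOfIntegers L) : L)‖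
        ≤ ∏ τ : L →+* ℂ, Real.exp ((N : ℝ) ^ 2 *
          (Fval (Fintype.card κ) (∑ i, (Real.posLog ‖τ (a i)‖) ^ 2) + η)) := by
          apply Finset.prod_le_prod (fun _ _ => norm_nonneg _)
          intro τ _
          rw [← hdet]
          exact h1 τ
      _ = Real.exp ((N : ℝ) ^ 2 * (Ft + m * η)) := by
          rw [← Real.exp_sum, ← Finset.mul_sum, Finset.sum_add_distrib, Finset.sum_const,
            Finset.card_univ, nsmul_eq_mul]
      _ < 1 := by
          rw [Real.exp_lt_one_iff]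
          exact mul_neg_of_pos_of_neg (by positivity) hη
  obtain ⟨P, Q, hQ, hPQ⟩ := kronecker (fun n => σ (c n : L)) (max N0 1) (by
    intro N hN
    rw [hdet, hzero N hN]
    simp)
  refine ⟨P, Q, hQ, ?_⟩
  have h1 : ((Q : PowerSeries ℂ) * PowerSeries.mk (fun n => σ (c n : L))) ^ 2 =
      (P : PowerSeries ℂ) ^ 2 := by
    rw [hPQ]
  rw [mul_pow, hcσ σ] at h1
  have h2 : ((Q ^ 2 * ∏ i, (1 - C (σ (a i)) * X) : ℂ[X]) : PowerSeries ℂ) =
      ((P ^ 2 : ℂ[X]) : PowerSeries ℂ) := by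
    rw [Polynomial.coe_mul, Polynomial.coe_pow, Polynomial.coe_pow]
    exact h1
  exact Polynomial.coe_inj.1 h2

open NotSquare in
/-- all multiplicities are even -/
theorem even_count {L : Type} [Field L] [NumberField L] {κ : Type} [Fintype κ]
    [Nonempty κ] (a : κ → L) (ha : ∀ i, a i ≠ 0) (c : ℕ → NumberField.RingOfIntegers L)
    (hc0 : c 0 = 1)
    (hc : (PowerSeries.mk fun n => (c n : L)) ^ 2 =
      ((∏ i, (1 - C (a i) * X) : L[X]) : PowerSeries L))
    (hs : (Fintype.card κ : ℝ) * ∑ σ : L →+* ℂ, ∑ i, (Real.posLog ‖σ (a i)‖) ^ 2 <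
      1 / 16 * Module.finrank ℚ L) (x : L) :
    Even (Nat.card {i : κ // a i = x}) := by
  classical
  obtain ⟨σ⟩ : Nonempty (L →+* ℂ) := inferInstance
  obtain ⟨P, Q, hQ, hPQ⟩ := rational a ha c hc0 hc hs σ
  have ha' : ∀ i, σ (a i) ≠ 0 := fun i => by
    rw [Ne, map_eq_zero]
    exact ha i
  have hB : (∏ i, (1 - C (σ (a i)) * X) : ℂ[X]) ≠ 0 :=
    Finset.prod_ne_zero_iff.mpr fun i _ => fac_ne _ (ha' i)
  have hroots := congrArg Polynomial.roots hPQ
  rw [roots_mul (mul_ne_zero (pow_ne_zero 2 hQ) hB), roots_pow, roots_pow] at hroots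
  have hcnt := congrArg (Multiset.count (σ x)⁻¹) hroots
  rw [Multiset.count_add, Multiset.count_nsmul, Multiset.count_nsmul, count_prod _ ha'] at hcnt
  have h1 : Nat.card {i : κ // a i = x} =
      (Finset.univ.filter fun i => (σ x)⁻¹ = (σ (a i))⁻¹).card := by
    rw [Nat.card_eq_fintype_card, Fintype.card_subtype]
    congr 1
    ext i
    simp only [Finset.mem_filter, Finset.mem_univ, true_and, inv_inj]
    constructor
    · intro h
      rw [h]
    · intro h
      exact (σ.injective h).symm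
  rw [h1, Nat.even_iff]
  omega

end Pool.Agent.W5h77.RQ
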