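import Pool.Agent.W5h77.RQ.NF
import Pool.Agent.W5h77.RQ.Cy

/-!
# Orbits of the stabiliser of a root of unity
-/

set_option autoImplicit false

open Polynomial

namespace Pool.Agent.W5h77.RQ

variable {L : Type} [Field L] [NumberField L] [IsGalois ℚ L]

instance charZero_ZZ (ζ : L) : CharZero (ZZ ζ) :=
  ⟨fun a b h => by
    have h1 := congrArg (algebraMap (ZZ ζ) L) h
    simpa using h1⟩

open Classical in
/-- the conjugates of `α` over `ℚ(ζ)` -/
noncomputable def orb (ζ α : L) : Finset L :=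
  (Finset.univ.filter fun g : L ≃ₐ[ℚ] L => g ζ = ζ).image fun g => g α

/-- the sum of the squares of `log⁺` of the conjugates -/
noncomputable def MM (α : L) : ℝ := ∑ σ : L →+* ℂ, (Real.posLog ‖σ α‖) ^ 2

theorem mem_orb {ζ α x : L} : x ∈ orb ζ α ↔ ∃ g : L ≃ₐ[ℚ] L, g ζ = ζ ∧ g α = x := by
  classical
  unfold orb
  simp only [Finset.mem_image, Finset.mem_filter, Finset.mem_univ, true_and]

theorem self_mem_orb (ζ α : L) : α ∈ orb ζ α := mem_orb.2 ⟨1, rfl, rfl⟩

theorem orb_nonempty (ζ α : L) : (orb ζ α).Nonempty := ⟨α, self_mem_orb ζ α⟩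

theorem orb_stable {ζ α x : L} {h : L ≃ₐ[ℚ] L} (hh : h ζ = ζ) (hx : x ∈ orb ζ α) :
    h x ∈ orb ζ α := by
  obtain ⟨g, hg, rfl⟩ := mem_orb.1 hx
  exact mem_orb.2 ⟨h * g, by rw [AlgEquiv.mul_apply, hg, hh], rfl⟩

theorem MM_aut (g : L ≃ₐ[ℚ] L) (α : L) : MM (g α) = MM α := by
  unfold MM
  refine Fintype.sum_equiv
    { toFun := fun σ : L →+* ℂ => σ.comp (g : L →+* L)
      invFun := fun σ : L →+* ℂ => σ.comp (g⁻¹ : L ≃ₐ[ℚ] L)
      left_inv := ?_
      right_inv := ?_ } _ _ ?_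
  · intro σ
    ext x
    simp
  · intro σ
    ext x
    simp
  · intro σ
    rfl

theorem MM_pow (α : L) (k : ℕ) : MM (α ^ k) = k ^ 2 * MM α := by
  unfold MM
  rw [Finset.mul_sum]
  refine Finset.sum_congr rfl fun σ _ => ?_
  rw [map_pow, norm_pow, Real.posLog_pow]
  ring

theorem MM_orb {ζ α x : L} (hx : x ∈ orb ζ α) : MM x = MM α := by
  obtain ⟨g, -, rfl⟩ := mem_orb.1 hx
  exact MM_aut g α

theorem MM_nonneg (α : L) : 0 ≤ MM α := Finset.sum_nonneg fun _ _ => sq_nonneg _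

/-- the polynomial with the reciprocals of the `k`-th powers of the conjugates over `ℚ(ζ)` as zeros
has coefficients in `ℤ[ζ]` -/
theorem lift_poly {m : ℕ} (hm : 0 < m) {ζ : L} (hζ : IsPrimitiveRoot ζ m) {α : L}
    (hα : IsIntegral ℤ α) (k : ℕ) : ∃ P : (ZZ ζ)[X],
      P.map (algebraMap (ZZ ζ) L) = ∏ x ∈ orb ζ α, (1 - C (x ^ k) * X) := by
  classical
  set Q : L[X] := ∏ x ∈ orb ζ α, (1 - C (x ^ k) * X) with hQ
  have hint : ∀ x ∈ orb ζ α, IsIntegral ℤ x := by
    intro x hx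
    obtain ⟨g, -, rfl⟩ := mem_orb.1 hx
    exact hα.map g.toAlgHom
  have h1 : Q ∈ Polynomial.lifts (algebraMap (integralClosure ℤ L) L) := by
    rw [hQ]
    apply prod_mem
    intro x hx
    have h2 : (1 - C (x ^ k) * X : L[X]) =
        (1 - C ((⟨x, hint x hx⟩ : integralClosure ℤ L) ^ k) * X :
          (integralClosure ℤ L)[X]).map (algebraMap (integralClosure ℤ L) L) := by
      simp
    rw [h2]
    exact ⟨_, rfl⟩
  have h2 : ∀ n, IsIntegral ℤ (Q.coeff n) := by
    obtain ⟨P, hP⟩ := (Polynomial.mem_lifts _).1 h1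
    intro n
    rw [← hP, coeff_map]
    exact (P.coeff n).2
  have h3 : ∀ g : L ≃ₐ[ℚ] L, g ζ = ζ → ∀ n, g (Q.coeff n) = Q.coeff n := by
    intro g hg n
    have h4 : Q.map (g : L →+* L) = Q := by
      rw [hQ, Polynomial.map_prod]
      have h5 : ∀ x : L, (1 - C (x ^ k) * X : L[X]).map (g : L →+* L) = 1 - C ((g x) ^ k) * X := by
        intro x
        simp
      simp only [h5]
      refine Finset.prod_bij (fun x _ => g x) ?_ ?_ ?_ ?_
      · intro x hx
        exact orb_stable hg hx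
      · intro x _ y _ h
        exact g.injective h
      · intro y hy
        refine ⟨g⁻¹ y, orb_stable ?_ hy, ?_⟩
        · rw [← hg]
          simp
          rw [hg]
        · simp
      · intro x _
        rfl
    have h5 := congrArg (fun P : L[X] => P.coeff n) h4
    simp only [coeff_map] at h5
    exact h5
  have h4 : ∀ n, Q.coeff n ∈ ZZ ζ := fun n => mem_of_fixed hm hζ (h2 n) (fun g hg => h3 g hg n)
  have h5 : Q ∈ Polynomial.lifts (algebraMap (ZZ ζ) L) := by
    rw [Polynomial.lifts_iff_coeff_lifts]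
    intro n
    exact ⟨⟨Q.coeff n, h4 n⟩, rfl⟩
  obtain ⟨P, hP⟩ := (Polynomial.mem_lifts _).1 h5
  exact ⟨P, hP⟩

theorem coeff_zero_prod {ι : Type} (s : Finset ι) (a : ι → L) :
    (∏ x ∈ s, (1 - C (a x) * X) : L[X]).coeff 0 = 1 := by
  rw [coeff_zero_eq_eval_zero, eval_prod]
  simp

theorem mapinj (ζ : L) : Function.Injective (algebraMap (ZZ ζ) L) := Subtype.val_injective

/-- the Graeffe transform relation -/
theorem graeffe_rel {ζ α : L} {k : ℕ} {P P' : (ZZ ζ)[X]}
    (hP : P.map (algebraMap (ZZ ζ) L) = ∏ x ∈ orb ζ α, (1 - C (x ^ k) * X))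
    (hP' : P'.map (algebraMap (ZZ ζ) L) = ∏ x ∈ orb ζ α, (1 - C (x ^ (2 * k)) * X)) :
    expand (ZZ ζ) 2 P' = P * P.comp (-X) := by
  apply Polynomial.map_injective _ (mapinj ζ)
  rw [map_expand, hP', Polynomial.map_mul, hP, map_comp, hP, Polynomial.map_neg, map_X, prod_comp,
    ← Finset.prod_mul_distrib, map_prod]
  refine Finset.prod_congr rfl fun x _ => ?_
  simp only [map_sub, map_one, map_mul, expand_C, expand_X, sub_comp, one_comp, mul_comp, C_comp,
    X_comp]
  rw [two_mul, pow_add, C_mul]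
  ring

/-- parity of the multiplicities -/
theorem parity {ζ : L} (hζi : IsIntegral ℤ ζ) {κ : Type} [Fintype κ] [Nonempty κ] (a : κ → L)
    (ha : ∀ i, a i ≠ 0) (R S U : (ZZ ζ)[X]) (hR : R.coeff 0 = 1) (hS : S.coeff 0 = 1)
    (h : S = R + 4 * U)
    (hRS : (R * S).map (algebraMap (ZZ ζ) L) = ∏ i, (1 - C (a i) * X))
    (hs : (Fintype.card κ : ℝ) * ∑ i, MM (a i) < 1 / 16 * Module.finrank ℚ L) (x : L) :
    Even (Nat.card {i : κ // a i = x}) := by
  have hU : U.coeff 0 = 0 := by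
    have h1 := congrArg (fun P : (ZZ ζ)[X] => P.coeff 0) h
    have h4 : (4 : (ZZ ζ)[X]) = C 4 := rfl
    simp only [coeff_add, h4, coeff_C_mul, hR, hS] at h1
    have h2 : (4 : ZZ ζ) * U.coeff 0 = 0 := by linear_combination -h1
    rcases mul_eq_zero.1 h2 with h3 | h3
    · exfalso
      have h5 := congrArg (algebraMap (ZZ ζ) L) h3
      rw [map_ofNat, map_zero] at h5
      norm_num at h5
    · exact h3
  obtain ⟨c, hc0, hc⟩ := exists_sqrt R S U hR hU h
  have hint : ∀ y : ZZ ζ, IsIntegral ℤ (y : L) := by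
    intro y
    have h1 : ZZ ζ ≤ integralClosure ℤ L := by
      apply Algebra.adjoin_le
      intro z hz
      rw [Set.mem_singleton_iff] at hz
      rw [hz]
      exact hζi
    exact h1 y.2
  refine even_count a ha (fun n => ⟨(c n : L), hint (c n)⟩) ?_ ?_ ?_ x
  · apply Subtype.ext
    change (c 0 : L) = 1
    rw [hc0]
    rfl
  · have h1 := congrArg (PowerSeries.map (algebraMap (ZZ ζ) L)) hc
    rw [map_pow] at h1
    have h2 : PowerSeries.map (algebraMap (ZZ ζ) L) (PowerSeries.mk c) =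
        PowerSeries.mk fun n => (c n : L) := by
      ext n
      rw [PowerSeries.coeff_map, PowerSeries.coeff_mk, PowerSeries.coeff_mk]
      rfl
    rw [h2, ← Polynomial.polynomial_map_coe, hRS] at h1
    exact h1
  · rw [Finset.sum_comm]
    exact hs

end Pool.Agent.W5h77.RQ
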